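import Pool.Agent.Helper61.RW.TreeA
import Pool.Agent.Helper64.SB.Search

/-!
RW module CaseA: case 1 of the main lemma (p is dominated by the gaps of v).

PROOF. Write c b = final closing of b: c b := par-independent value, e.g. choose
C b := the u with ∃ t, S t b = some u if b is closed, false otherwise; SF x := par C x.
(1) For l with v l ≥ n0 (e.g. l ≥ n0, v l ≥ l): by h there is t ≥ p (v l) with newB (v l) t, so
    p (v l) ≤ t ≤ v (l+1) (hS.gap), and v l < p (v l) (hp).
(2) Say that x, y are linked at stage s if for all b with min x y ≤ b < max x y, S s b ≠ none. If x ≤ y are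
    linked at s, then SF x ^^ SF y = par (fun b => (S s b).getD false) x ^^ par (same) y
    (induction on y - x; the closings at stage s are the final ones, hS.mono).
(3) If x, y ∈ (v l, v (l+1)] then they are linked at a late stage (every b between them is closed by
    hS.opn as v l < b < v (l+1) is not a value of v (smono); finitely many b, hS.mono).
    If x ∈ (v l, v (l+1)] and x, y are linked then y ∈ (v l, v (l+1)] (otherwise v l or v (l+1) is in
    [min x y, max x y), but it is open).
(4) If y, y' ∈ range p are linked then SF y = SF y': take N larger than y, y' and than the stage, σ from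
    hcol N; for b between, S N b = some u gives σ(b) ^^ σ(b+1) = u = C b (inT_iff, mono), so
    σ(y) ^^ σ(y') = SF y ^^ SF y' (telescoping), and σ(y) = σ(y') = col.
(5) Search (Pool/Agent/Helper64/SB/Search.lean `search`, oracle p): for m let w = Nat.pair i s be such that
    i < k, y = (ini p k)[i] and m, y are linked at stage s or m ≤ v n0. Existence: for v n0 < m there is l ≥ n0
    with m ∈ (v l, v (l+1)]; y = p (v l) (i = v l), s late. This gives w ≤_T p total. Let
    H m := par (fun b => (S s b).getD false) m ^^ par (same) (p i), with (i, s) = unpair (w m): computable in p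
    (RecIn.comp₂ etc.). By (2) for m > v n0: H m = SF m ^^ SF (p i), p i in the same class as m (3), and
    SF (p i) = SF (p (v l)) (4), (3).
(6) Y b := H b ^^ H (b+1) for b > v n0, Y b := C b for b ≤ v n0 (a finite table: computable, e.g. by
    list_getD with a constant list). If b > v n0 is closed, b and b+1 are in the same class, so
    Y b = SF b ^^ SF (b+1) = C b (par_succ). So Y extends all the closings: FG Y by hS.gen. Y ≤_T p.
-/

set_option autoImplicit false

namespace Pool.Agent.Helper61.RW

open Encodable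
open Pool.Agent.Helper64.SB
open Pool.Agent.Helper30.SatB

section

variable {S : ℕ → ℕ → Option Bool} {v : ℕ → ℕ}

open Classical in
/-- The final closing value. -/
noncomputable def CF (S : ℕ → ℕ → Option Bool) (b : ℕ) : Bool :=
  if h : ∃ u t, S t b = some u then h.choose else false

theorem CF_eq (hS : Con S v) {t b : ℕ} {u : Bool} (h : S t b = some u) : CF S b = u := by
  have hex : ∃ u t, S t b = some u := ⟨u, t, h⟩
  unfold CF
  rw [dif_pos hex]
  obtain ⟨t', ht'⟩ := hex.choose_spec
  have h1 := hS.mono t (max t t') b u (le_max_left _ _) h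
  have h2 := hS.mono t' (max t t') b _ (le_max_right _ _) ht'
  rw [h1] at h2
  exact (Option.some.inj h2).symm

/-- Linked points. -/
def Lk (S : ℕ → ℕ → Option Bool) (s x y : ℕ) : Prop :=
  ∀ b, min x y ≤ b → b < max x y → S s b ≠ none

theorem tele {f : ℕ → Bool} {g : ℕ → Bool} {x : ℕ} : ∀ {y : ℕ}, x ≤ y →
    (∀ b, x ≤ b → b < y → (f b ^^ f (b + 1)) = g b) → (f x ^^ f y) = (par g x ^^ par g y) := by
  intro y hxy
  induction hxy with
  | refl => intro _; simp
  | @step m hm ih =>
    intro h
    have h1 := ih fun b hb hb' => h b hb (by omega)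
    have h2 := h m hm (by omega)
    rw [par_succ]
    revert h1 h2
    generalize f x = a
    generalize f m = b
    generalize f (m + 1) = c
    generalize par g x = d
    generalize par g m = e
    generalize g m = k
    intro h1 h2
    rw [← h2, ← Bool.xor_assoc, ← h1]
    cases a <;> cases b <;> cases c <;> rfl

theorem link_par' (hS : Con S v) {s x y : ℕ} (hxy : x ≤ y)
    (h : ∀ b, x ≤ b → b < y → S s b ≠ none) :
    (sg S s x ^^ sg S s y) = (par (CF S) x ^^ par (CF S) y) := by
  refine tele hxy fun b hb hb' => ?_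
  have h1 := h b hb hb'
  unfold sg
  rw [par_succ]
  cases hu : S s b with
  | none => exact absurd hu h1
  | some u =>
    rw [CF_eq hS hu]
    simp

theorem link_par (hS : Con S v) {s x y : ℕ} (h : Lk S s x y) :
    (sg S s x ^^ sg S s y) = (par (CF S) x ^^ par (CF S) y) := by
  rcases le_total x y with hxy | hxy
  · refine link_par' hS hxy fun b hb hb' => h b ?_ ?_
    · simpa [min_eq_left hxy] using hb
    · simpa [max_eq_right hxy] using hb'
  · rw [Bool.xor_comm, Bool.xor_comm (par (CF S) x)]
    refine link_par' hS hxy fun b hb hb' => h b ?_ ?_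
    · simpa [min_eq_right hxy] using hb
    · simpa [max_eq_left hxy] using hb'

theorem open_v (hS : Con S v) (t l : ℕ) : S t (v l) = none :=
  (hS.opn (v l)).mpr ⟨l, rfl⟩ t

theorem exists_class (hS : Con S v) {n0 m : ℕ} (h : v n0 < m) :
    ∃ l ≥ n0, v l < m ∧ m ≤ v (l + 1) := by
  have hex : ∃ j, m ≤ v j := ⟨m, hS.smono.le_apply⟩
  have h1 := Nat.find_spec hex
  have h2 : n0 < Nat.find hex := by
    by_contra hcon
    have := hS.smono.monotone (not_lt.mp hcon)
    omega
  obtain ⟨l, hl⟩ : ∃ l, Nat.find hex = l + 1 := ⟨Nat.find hex - 1, by omega⟩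
  refine ⟨l, by omega, ?_, by rw [← hl]; exact h1⟩
  have := Nat.find_min hex (m := l) (by omega)
  omega

theorem link_class (hS : Con S v) {s x y l : ℕ} (h : Lk S s x y) (h1 : v l < x)
    (h2 : x ≤ v (l + 1)) : v l < y ∧ y ≤ v (l + 1) := by
  constructor
  · by_contra hcon
    refine h (v l) ?_ ?_ (open_v hS s l)
    · exact (min_le_right _ _).trans (not_lt.mp hcon)
    · exact h1.trans_le (le_max_left _ _)
  · by_contra hcon
    refine h (v (l + 1)) ?_ ?_ (open_v hS s (l + 1))
    · exact (min_le_left _ _).trans h2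
    · exact (not_le.mp hcon).trans_le (le_max_right _ _)

theorem late (hS : Con S v) (N : ℕ) : ∃ s0, ∀ s ≥ s0, ∀ b < N, (∃ t, S t b ≠ none) →
    S s b ≠ none := by
  induction N with
  | zero => exact ⟨0, fun s _ b hb => absurd hb (by omega)⟩
  | succ N ih =>
    obtain ⟨s0, h0⟩ := ih
    by_cases hN : ∃ t, S t N ≠ none
    · obtain ⟨t, ht⟩ := hN
      refine ⟨max s0 t, fun s hs b hb hex => ?_⟩
      rcases Nat.lt_succ_iff_lt_or_eq.mp hb with hb | rfl
      · exact h0 s (le_trans (le_max_left _ _) hs) b hb hex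
      · obtain ⟨u, hu⟩ := Option.ne_none_iff_exists'.mp ht
        rw [hS.mono t s b u (le_trans (le_max_right _ _) hs) hu]
        simp
    · refine ⟨s0, fun s hs b hb hex => ?_⟩
      rcases Nat.lt_succ_iff_lt_or_eq.mp hb with hb | rfl
      · exact h0 s hs b hb hex
      · exact absurd hex hN

theorem class_link (hS : Con S v) {x y l : ℕ} (hx : v l < x) (hx' : x ≤ v (l + 1))
    (hy : v l < y) (hy' : y ≤ v (l + 1)) : ∃ s, Lk S s x y := by
  obtain ⟨s0, h0⟩ := late hS (v (l + 1))
  refine ⟨s0, fun b hb hb' => h0 s0 le_rfl b ?_ ?_⟩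
  · exact hb'.trans_le (max_le hx' hy')
  · by_contra hcon
    push Not at hcon
    obtain ⟨j, hj⟩ := (hS.opn b).mp hcon
    have h1 : v l < v j := by rw [← hj]; exact (lt_min hx hy).trans_le hb
    have h2 : v j < v (l + 1) := by rw [← hj]; exact hb'.trans_le (max_le hx' hy')
    have h3 := hS.smono.lt_iff_lt.mp h1
    have h4 := hS.smono.lt_iff_lt.mp h2
    omega

theorem hom_link' (hS : Con S v) {col : Bool} {s x y : ℕ} {N : ℕ} {σ : List Bool}
    (h1 : inT S σ = true) (h2 : σ.length = N) (hsN : s ≤ N) (hxy : x ≤ y) (hyN : y < N)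
    (hx : σ.getD x false = col) (hy : σ.getD y false = col)
    (h : ∀ b, x ≤ b → b < y → S s b ≠ none) : par (CF S) x = par (CF S) y := by
  have h3 := tele (f := fun i => σ.getD i false) (g := CF S) hxy fun b hb hb' => by
    obtain ⟨u, hu⟩ := Option.ne_none_iff_exists'.mp (h b hb hb')
    have := inT_iff.mp h1 b u (by omega) (by rw [h2]; exact hS.mono s N b u hsN hu)
    rw [CF_eq hS hu]
    exact this
  simp only [hx, hy] at h3
  revert h3
  generalize par (CF S) x = a
  generalize par (CF S) y = b
  cases a <;> cases b <;> cases col <;> simp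

theorem hom_link (hS : Con S v) {p : ℕ → ℕ} {col : Bool}
    (hcol : ∀ N, ∃ σ : List Bool, inT S σ = true ∧ σ.length = N ∧
      ∀ n, p n < N → σ.getD (p n) false = col) {s n n' : ℕ} (h : Lk S s (p n) (p n')) :
    par (CF S) (p n) = par (CF S) (p n') := by
  obtain ⟨σ, h1, h2, h3⟩ := hcol (p n + p n' + s + 1)
  rcases le_total (p n) (p n') with hxy | hxy
  · refine hom_link' hS h1 h2 (s := s) (by omega) hxy (by omega) (h3 n (by omega))
      (h3 n' (by omega)) fun b hb hb' => h b ?_ ?_
    · simpa [min_eq_left hxy] using hb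
    · simpa [max_eq_right hxy] using hb'
  · refine (hom_link' hS h1 h2 (s := s) (by omega) hxy (by omega) (h3 n' (by omega))
      (h3 n (by omega)) fun b hb hb' => h b ?_ ?_).symm
    · simpa [min_eq_right hxy] using hb
    · simpa [max_eq_left hxy] using hb'

end

/-- Boolean test for linked points. -/
def lkB (S : ℕ → ℕ → Option Bool) (s x y : ℕ) : Bool :=
  (List.range (max x y)).all fun b => decide (b < min x y) || (S s b).isSome

theorem lkB_iff {S : ℕ → ℕ → Option Bool} {s x y : ℕ} : lkB S s x y = true ↔ Lk S s x y := by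
  unfold lkB Lk
  rw [List.all_eq_true]
  constructor
  · intro h b hb hb'
    have := h b (List.mem_range.mpr hb')
    rw [Bool.or_eq_true, decide_eq_true_eq] at this
    rcases this with h1 | h1
    · omega
    · intro hn
      rw [hn] at h1
      cases h1
  · intro h b hb
    rw [Bool.or_eq_true, decide_eq_true_eq]
    by_cases h1 : b < min x y
    · exact Or.inl h1
    · right
      have := h b (not_lt.mp h1) (List.mem_range.mp hb)
      cases hu : S s b with
      | none => exact absurd hu this
      | some u => rfl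

theorem comp_lkB {S : ℕ → ℕ → Option Bool} (hS : Computable₂ S) :
    Computable fun q : ℕ × ℕ × ℕ => lkB S q.1 q.2.1 q.2.2 := by
  unfold lkB
  refine comp_all (l := fun q : ℕ × ℕ × ℕ => List.range (max q.2.1 q.2.2))
    (p := fun q b => decide (b < min q.2.1 q.2.2) || (S q.1 b).isSome) ?_ ?_
  · exact comp_range.comp ((Primrec.nat_max.comp (Primrec.fst.comp Primrec.snd)
      (Primrec.snd.comp Primrec.snd)).to_comp)
  · refine (comp_or ?_ ?_ : Computable fun z : (ℕ × ℕ × ℕ) × ℕ =>
      decide (z.2 < min z.1.2.1 z.1.2.2) || (S z.1.1 z.2).isSome)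
    · exact (Primrec.nat_lt.decide.comp Primrec.snd (Primrec.nat_min.comp
        (Primrec.fst.comp (Primrec.snd.comp Primrec.fst))
        (Primrec.snd.comp (Primrec.snd.comp Primrec.fst)))).to_comp
    · exact Primrec.option_isSome.to_comp.comp
        (hS.comp (Computable.fst.comp Computable.fst) Computable.snd)

theorem comp_searchA {S : ℕ → ℕ → Option Bool} (hS : Computable₂ S) (c : ℕ) :
    Computable fun x : List ℕ × ℕ × ℕ => decide (x.2.1 ≤ c) ||
      (decide (x.2.2.unpair.1 < x.1.length) &&
        lkB S x.2.2.unpair.2 x.2.1 (x.1.getD x.2.2.unpair.1 0)) := by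
  have c1 : Computable fun x : List ℕ × ℕ × ℕ => decide (x.2.1 ≤ c) :=
    (Primrec.nat_le.decide.comp (Primrec.fst.comp Primrec.snd) (Primrec.const _)).to_comp
  have c0 : Computable fun x : List ℕ × ℕ × ℕ => x.2.2.unpair.1 :=
    (Primrec.fst.comp (Primrec.unpair.comp (Primrec.snd.comp Primrec.snd))).to_comp
  have c2 : Computable fun x : List ℕ × ℕ × ℕ => decide (x.2.2.unpair.1 < x.1.length) :=
    (Primrec.nat_lt.decide.comp (Primrec.fst.comp (Primrec.unpair.comp
      (Primrec.snd.comp Primrec.snd))) (Primrec.list_length.comp Primrec.fst)).to_comp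
  have c3 : Computable fun x : List ℕ × ℕ × ℕ => x.2.2.unpair.2 :=
    (Primrec.snd.comp (Primrec.unpair.comp (Primrec.snd.comp Primrec.snd))).to_comp
  have c4 : Computable fun x : List ℕ × ℕ × ℕ => x.2.1 := (Primrec.fst.comp Primrec.snd).to_comp
  have c5 : Computable fun x : List ℕ × ℕ × ℕ => x.1.getD x.2.2.unpair.1 0 :=
    (Primrec.list_getD 0).to_comp.comp Computable.fst c0
  have c6 : Computable fun x : List ℕ × ℕ × ℕ => (x.2.2.unpair.2, x.2.1, x.1.getD x.2.2.unpair.1 0) :=
    Computable.pair c3 (Computable.pair c4 c5)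
  have c7 := (comp_lkB hS).comp c6
  exact comp_or c1 (comp_and c2 c7)

theorem comp_HA {S : ℕ → ℕ → Option Bool} (hS : Computable₂ S) :
    Computable₂ fun x y : ℕ =>
      ((sg S x.unpair.1.unpair.2 x.unpair.2 ^^ sg S x.unpair.1.unpair.2 y).toNat) := by
  have c1 : Computable fun z : ℕ × ℕ => z.1.unpair.1.unpair.2 :=
    (Primrec.snd.comp (Primrec.unpair.comp
      (Primrec.fst.comp (Primrec.unpair.comp Primrec.fst)))).to_comp
  have c2 : Computable fun z : ℕ × ℕ => z.1.unpair.2 :=
    (Primrec.snd.comp (Primrec.unpair.comp Primrec.fst)).to_comp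
  have c3 : Computable fun z : ℕ × ℕ => sg S z.1.unpair.1.unpair.2 z.1.unpair.2 :=
    (comp_sg hS).comp c1 c2
  have c4 : Computable fun z : ℕ × ℕ => sg S z.1.unpair.1.unpair.2 z.2 :=
    (comp_sg hS).comp c1 Computable.snd
  have c5 : Computable fun z : Bool × Bool => (z.1 ^^ z.2).toNat :=
    (Primrec.dom_finite _).to_comp
  have c6 := Computable.pair c3 c4
  have c7 := c5.comp c6
  exact c7

theorem comp_YA (L : List Bool) (c : ℕ) :
    Computable₂ fun b q : ℕ => bif decide (b ≤ c) then (L.getD b false).toNat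
        else (decide (q.unpair.1 = 1) ^^ decide (q.unpair.2 = 1)).toNat := by
  have c1 : Primrec fun z : ℕ × ℕ => decide (z.1 ≤ c) :=
    Primrec.nat_le.decide.comp Primrec.fst (Primrec.const _)
  have c2 : Primrec fun z : ℕ × ℕ => L.getD z.1 false :=
    (Primrec.list_getD false).comp (Primrec.const _) Primrec.fst
  have c3 : Primrec fun z : ℕ × ℕ => (L.getD z.1 false).toNat :=
    (Primrec.dom_finite Bool.toNat).comp c2
  have c4 : Primrec fun z : ℕ × ℕ => decide (z.2.unpair.1 = 1) :=
    Primrec.eq.decide.comp (Primrec.fst.comp (Primrec.unpair.comp Primrec.snd)) (Primrec.const _)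
  have c5 : Primrec fun z : ℕ × ℕ => decide (z.2.unpair.2 = 1) :=
    Primrec.eq.decide.comp (Primrec.snd.comp (Primrec.unpair.comp Primrec.snd)) (Primrec.const _)
  have c6 : Primrec fun z : Bool × Bool => (z.1 ^^ z.2).toNat := Primrec.dom_finite _
  exact (Primrec.cond c1 c3 (c6.comp (Primrec.pair c4 c5))).to_comp

theorem case1 {S : ℕ → ℕ → Option Bool} {v : ℕ → ℕ} (hS : Con S v) {p : ℕ → ℕ}
    (hp : ∀ n, n < p n) {col : Bool}
    (hcol : ∀ N, ∃ σ : List Bool, inT S σ = true ∧ σ.length = N ∧
      ∀ n, p n < N → σ.getD (p n) false = col)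
    {n0 : ℕ} (h : ∀ n ≥ n0, ∃ t ≥ p n, newB n t = true) :
    ∃ Z, FG Z ∧ RecIn p fun n => (Z n).toNat := by
  have hcl : ∀ l ≥ n0, v l < p (v l) ∧ p (v l) ≤ v (l + 1) := by
    intro l hl
    obtain ⟨t, ht, hnew⟩ := h (v l) (hl.trans hS.smono.le_apply)
    exact ⟨hp _, ht.trans (hS.gap l t hnew)⟩
  -- the search
  obtain ⟨w, hw, hws⟩ := search (g := p) (P := fun ζ m w => decide (m ≤ v n0) ||
      (decide (w.unpair.1 < ζ.length) && lkB S w.unpair.2 m (ζ.getD w.unpair.1 0))) (by
      exact comp_searchA hS.comp (v n0)) (by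
      intro m
      by_cases hm : m ≤ v n0
      · exact ⟨0, 0, by simp [hm]⟩
      · obtain ⟨l, hl, h1, h2⟩ := exists_class hS (not_le.mp hm)
        obtain ⟨h3, h4⟩ := hcl l hl
        obtain ⟨s, hs⟩ := class_link hS h1 h2 h3 h4
        refine ⟨v l + 1, Nat.pair (v l) s, ?_⟩
        have h5 : (ini p (v l + 1)).getD (v l) 0 = p (v l) := by
          rw [List.getD_eq_getElem?_getD, getElem?_ini]
          simp
        rw [Bool.or_eq_true, Bool.and_eq_true]
        right
        simp only [Nat.unpair_pair, length_ini, h5]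
        exact ⟨by simp, lkB_iff.mpr hs⟩)
  have hlk : ∀ m, v n0 < m → Lk S (w m).unpair.2 m (p (w m).unpair.1) := by
    intro m hm
    obtain ⟨k, hk⟩ := hws m
    rw [Bool.or_eq_true, Bool.and_eq_true, decide_eq_true_eq, decide_eq_true_eq,
      length_ini] at hk
    rcases hk with hk | ⟨hk, hk'⟩
    · omega
    · rw [List.getD_eq_getElem?_getD, getElem?_ini, if_pos hk] at hk'
      exact lkB_iff.mp hk'
  let H : ℕ → Bool := fun m => (sg S (w m).unpair.2 m ^^ sg S (w m).unpair.2 (p (w m).unpair.1))
  have hH : RecIn p fun m => (H m).toNat := by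
    have h1 : RecIn p fun m => Nat.pair (w m) m :=
      hw.pair (RecIn.of_computable Computable.id)
    have h2 : RecIn p fun m => p (w m).unpair.1 :=
      (RecIn.refl p).comp ((RecIn.of_computable (Computable.fst.comp Computable.unpair)).comp hw)
    refine (RecIn.comp₂ (comp_HA hS.comp) h1 h2).of_eq fun m => ?_
    simp [H]
  have hHS : ∀ l ≥ n0, ∀ m, v l < m → m ≤ v (l + 1) →
      H m = (par (CF S) m ^^ par (CF S) (p (v l))) := by
    intro l hl m h1 h2
    have h3 := hlk m (lt_of_le_of_lt (hS.smono.monotone hl) h1)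
    have h4 := link_class hS h3 h1 h2
    have h5 := hcl l hl
    obtain ⟨s, hs⟩ := class_link hS h4.1 h4.2 h5.1 h5.2
    show (sg S (w m).unpair.2 m ^^ sg S (w m).unpair.2 (p (w m).unpair.1)) = _
    rw [link_par hS h3, hom_link hS hcol hs]
  let Y : ℕ → Bool := fun b => bif decide (b ≤ v n0) then CF S b else (H b ^^ H (b + 1))
  refine ⟨Y, hS.gen Y ?_, ?_⟩
  · intro t b u hu
    by_cases hb : b ≤ v n0
    · show (bif decide (b ≤ v n0) then CF S b else _) = u
      simp [hb, CF_eq hS hu]
    · show (bif decide (b ≤ v n0) then CF S b else (H b ^^ H (b + 1))) = u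
      obtain ⟨l, hl, h1, h2⟩ := exists_class hS (not_le.mp hb)
      have h3 : b ≠ v (l + 1) := by
        intro h3
        rw [h3, open_v hS] at hu
        cases hu
      rw [hHS l hl b h1 h2, hHS l hl (b + 1) (by omega) (by omega), par_succ, CF_eq hS hu]
      simp only [hb, decide_false, cond_false]
      generalize par (CF S) b = x
      generalize par (CF S) (p (v l)) = y
      cases x <;> cases y <;> cases u <;> rfl
  · have h1 : RecIn p fun m => Nat.pair (H m).toNat (H (m + 1)).toNat :=
      hH.pair (hH.comp (h := fun m => m + 1) (RecIn.of_computable Computable.succ))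
    refine (RecIn.comp₂ (comp_YA ((List.range (v n0 + 1)).map (CF S)) (v n0))
      (RecIn.of_computable Computable.id) h1).of_eq fun b => ?_
    show (bif decide (b ≤ v n0) then
        (((List.range (v n0 + 1)).map (CF S)).getD b false).toNat
        else (decide ((Nat.pair (H b).toNat (H (b + 1)).toNat).unpair.1 = 1) ^^
          decide ((Nat.pair (H b).toNat (H (b + 1)).toNat).unpair.2 = 1)).toNat) =
      (bif decide (b ≤ v n0) then CF S b else (H b ^^ H (b + 1))).toNat
    by_cases hb : b ≤ v n0
    · simp [hb, List.getD_eq_getElem?_getD, Nat.lt_succ_iff.mpr hb]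
    · simp only [hb, decide_false, cond_false, Nat.unpair_pair]
      cases H b <;> cases H (b + 1) <;> rfl

end Pool.Agent.Helper61.RW
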