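import Pool.Agent.Helper61.RW.NewA
import Pool.Agent.Helper64.SB.Search

/-!
RW module CaseB: case 2 of the main lemma (p escapes the bounds of the new events infinitely often:
then p computes a 1-generic).

PROOF. (0) P n := max of p i, i ≤ n: monotone, n < P n, p n ≤ P n, RecIn p P (RecIn.prec or
ini: P n = (ini p (n+1)).foldl max 0; recIn_ini and a computable function of the list).
(1) isc τ e t : Bool := exEv t (fun x => decide (x.1 = e) && decide (x.2.take τ.length = τ)) -- the event t
has code e and extends τ. satd P τ e : Bool := (List.range P).any (fun t => exEv t (fun x =>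
decide (x.1 = e) && decide (τ.take x.2.length = x.2))) -- an event t < P with code e is a prefix of τ.
  bit P τ : Bool := let e* := (range (τ.length + 1)).find? (fun e => !satd P τ e && (range P).any (isc τ e)),
  t* := (range P).find? (isc τ e*), bit := the bit number τ.length of the string of the event t*
  (false if something is none). Computable (comp_any, comp_all, comp_filter and List.head?_filter for
  find?). Z|n := τ_n, τ_0 = [], τ_(n+1) = τ_n ++ [bit (P n) τ_n], Z n = bit (P n) τ_n, pre Z n = τ_n.
  RecIn p Z: primitive recursion on encode τ_n (compare recIn_ini in Pool/Agent/Helper64/SB/Search.lean).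
(2) CLAIM for every e: (∃ n, W e (pre Z n)) ∨ ∃ n, ∀ ρ, pre Z n <+: ρ → ¬ W e ρ. Strong induction on e.
  Suppose not, for e. For e' < e take n_{e'}: if W e' (pre Z n), Ev t = some (e', pre Z n), then
  n_{e'} = max n t (so satd (P m) (pre Z m) e' for all m ≥ n_{e'}: t < P m, pre Z n <+: pre Z m); otherwise n_{e'} with
  no extension of pre Z n_{e'} in W e' (then isc (pre Z m) e' t is false for all t, m ≥ n_{e'}).
  Let m0 ≥ e and ≥ all these n_{e'}. By h there is n ≥ m0 such that all t with newB n t are < p n ≤ P n.
  There is ρ ∈ W e extending pre Z n, Ev t1 = some (e, ρ); by exists_new (e ≤ n) there is t' with newB n t' and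
  Ev t' = some (e, ρ'), ρ'.take n = ρ.take n = pre Z n; so t' < P n. Let t0 be the LEAST t with
  isc (pre Z n) e t; t0 ≤ t' < P n; Ev t0 = some (e, ρ0). By induction on j: n + j ≤ ρ0.length →
  pre Z (n + j) <+: ρ0. Step: at m = n + j < ρ0.length, e is not satd (otherwise W e (pre Z i) for some i, excluded),
  isc (pre Z m) e t0 with t0 < P n ≤ P m, all e' < e are satd or without candidate, so e* = e
  (List.find?_range_eq_some), and t* = t0: t < t0 with isc (pre Z m) e t would be isc (pre Z n) e t.
  So the bit is ρ0[m]. At j = ρ0.length - n: pre Z ρ0.length = ρ0 ∈ W e: contradiction.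
(3) FG Z: in the second case of the claim, for p < 2 take b ∈ {n, n+1} with b % 2 = p: for m > b
  pre (flp Z b) m extends pre (flp Z b) n = pre Z n.
-/

set_option autoImplicit false

namespace Pool.Agent.Helper61.RW

open Encodable
open Pool.Agent.Helper64.SB
open Pool.Agent.Helper30.SatB

/-! ### The search for the next bit -/

/-- The event `t` has code `e` and extends `τ`. -/
private def isc (τ : List Bool) (e t : ℕ) : Bool :=
  exEv t fun x => decide (x.1 = e) && decide (x.2.take τ.length = τ)

/-- Some event `< P` with code `e` is a prefix of `τ`. -/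
private def satd (P : ℕ) (τ : List Bool) (e : ℕ) : Bool :=
  (List.range P).any fun t => exEv t fun x =>
    decide (x.1 = e) && decide (τ.take x.2.length = x.2)

private def estar (P : ℕ) (τ : List Bool) : Option ℕ :=
  (List.range (τ.length + 1)).find? fun e => !satd P τ e && (List.range P).any (isc τ e)

private def tstar (P : ℕ) (τ : List Bool) (e : ℕ) : Option ℕ := (List.range P).find? (isc τ e)

private def bit (P : ℕ) (τ : List Bool) : Bool :=
  ((((estar P τ).bind (tstar P τ)).bind Ev).map fun x => x.2.getD τ.length false).getD false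

private theorem isc_iff {τ : List Bool} {e t : ℕ} :
    isc τ e t = true ↔ ∃ ρ, Ev t = some (e, ρ) ∧ ρ.take τ.length = τ := by
  unfold isc
  rw [exEv_iff]
  constructor
  · rintro ⟨e', ρ, h1, h2⟩
    rw [Bool.and_eq_true, decide_eq_true_eq, decide_eq_true_eq] at h2
    obtain ⟨h2, h3⟩ := h2
    dsimp only at h2 h3
    subst h2
    exact ⟨ρ, h1, h3⟩
  · rintro ⟨ρ, h1, h2⟩
    refine ⟨e, ρ, h1, ?_⟩
    rw [Bool.and_eq_true, decide_eq_true_eq, decide_eq_true_eq]
    exact ⟨rfl, h2⟩

private theorem satd_iff {P : ℕ} {τ : List Bool} {e : ℕ} :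
    satd P τ e = true ↔ ∃ t < P, ∃ ρ, Ev t = some (e, ρ) ∧ τ.take ρ.length = ρ := by
  unfold satd
  rw [List.any_eq_true]
  constructor
  · rintro ⟨t, ht, h⟩
    rw [exEv_iff] at h
    obtain ⟨e', ρ, h1, h2⟩ := h
    rw [Bool.and_eq_true, decide_eq_true_eq, decide_eq_true_eq] at h2
    obtain ⟨h2, h3⟩ := h2
    dsimp only at h2 h3
    subst h2
    exact ⟨t, List.mem_range.1 ht, ρ, h1, h3⟩
  · rintro ⟨t, ht, ρ, h1, h2⟩
    refine ⟨t, List.mem_range.2 ht, ?_⟩
    rw [exEv_iff]
    refine ⟨e, ρ, h1, ?_⟩
    rw [Bool.and_eq_true, decide_eq_true_eq, decide_eq_true_eq]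
    exact ⟨rfl, h2⟩

/-! ### Computability -/

section comp

variable {α β : Type} [Primcodable α] [Primcodable β]

private theorem comp_find {l : α → List β} {q : α → β → Bool} (hl : Computable l)
    (hq : Computable₂ q) : Computable fun a => (l a).find? (q a) := by
  refine (Primrec.list_head?.to_comp.comp (comp_filter hl hq)).of_eq fun a => ?_
  exact List.head?_filter

private theorem comp_isc {τ : α → List Bool} {e t : α → ℕ} (hτ : Computable τ)
    (he : Computable e) (ht : Computable t) : Computable fun a => isc (τ a) (e a) (t a) := by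
  refine comp_exEv ht
    (q := fun a x => decide (x.1 = e a) && decide (x.2.take (τ a).length = τ a)) ?_
  refine comp_and (α := α × (ℕ × List Bool)) (p := fun y => decide (y.2.1 = e y.1))
    (q := fun y => decide (y.2.2.take (τ y.1).length = τ y.1)) ?_ ?_
  · exact Primrec.eq.decide.to_comp.comp (Computable.fst.comp Computable.snd)
      (he.comp Computable.fst)
  · exact Primrec.eq.decide.to_comp.comp
      (Primrec.list_take.to_comp.comp (Computable.list_length.comp (hτ.comp Computable.fst))
        (Computable.snd.comp Computable.snd)) (hτ.comp Computable.fst)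

private theorem comp_satd {P : α → ℕ} {τ : α → List Bool} {e : α → ℕ} (hP : Computable P)
    (hτ : Computable τ) (he : Computable e) : Computable fun a => satd (P a) (τ a) (e a) := by
  refine comp_any (l := fun a => List.range (P a)) (p := fun a t => exEv t fun x =>
    decide (x.1 = e a) && decide ((τ a).take x.2.length = x.2)) (comp_range.comp hP) ?_
  refine comp_exEv (α := α × ℕ) (t := fun y => y.2) (q := fun y x =>
    decide (x.1 = e y.1) && decide ((τ y.1).take x.2.length = x.2)) Computable.snd ?_
  refine comp_and (α := (α × ℕ) × (ℕ × List Bool)) (p := fun y => decide (y.2.1 = e y.1.1))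
    (q := fun y => decide ((τ y.1.1).take y.2.2.length = y.2.2)) ?_ ?_
  · exact Primrec.eq.decide.to_comp.comp (Computable.fst.comp Computable.snd)
      (he.comp (Computable.fst.comp Computable.fst))
  · exact Primrec.eq.decide.to_comp.comp
      (Primrec.list_take.to_comp.comp
        (Computable.list_length.comp (Computable.snd.comp Computable.snd))
        (hτ.comp (Computable.fst.comp Computable.fst))) (Computable.snd.comp Computable.snd)

private theorem comp_estar {P : α → ℕ} {τ : α → List Bool} (hP : Computable P)
    (hτ : Computable τ) : Computable fun a => estar (P a) (τ a) := by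
  refine comp_find (l := fun a => List.range ((τ a).length + 1)) (q := fun a e =>
    !satd (P a) (τ a) e && (List.range (P a)).any (isc (τ a) e)) ?_ ?_
  · exact comp_range.comp (Primrec.succ.to_comp.comp (Computable.list_length.comp hτ))
  · refine comp_and (α := α × ℕ) (p := fun y => !satd (P y.1) (τ y.1) y.2)
      (q := fun y => (List.range (P y.1)).any (isc (τ y.1) y.2)) ?_ ?_
    · exact comp_not (comp_satd (hP.comp Computable.fst) (hτ.comp Computable.fst)
        Computable.snd)
    · refine comp_any (α := α × ℕ) (l := fun y => List.range (P y.1))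
        (p := fun y t => isc (τ y.1) y.2 t) (comp_range.comp (hP.comp Computable.fst)) ?_
      exact comp_isc (hτ.comp (Computable.fst.comp Computable.fst))
        (Computable.snd.comp Computable.fst) Computable.snd

private theorem comp_tstar {P : α → ℕ} {τ : α → List Bool} {e : α → ℕ} (hP : Computable P)
    (hτ : Computable τ) (he : Computable e) : Computable fun a => tstar (P a) (τ a) (e a) := by
  refine comp_find (l := fun a => List.range (P a)) (q := fun a t => isc (τ a) (e a) t)
    (comp_range.comp hP) ?_
  exact comp_isc (hτ.comp Computable.fst) (he.comp Computable.fst) Computable.snd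

private theorem comp_bit {P : α → ℕ} {τ : α → List Bool} (hP : Computable P)
    (hτ : Computable τ) : Computable fun a => bit (P a) (τ a) := by
  refine Computable.option_getD (f := fun a =>
    (((estar (P a) (τ a)).bind (tstar (P a) (τ a))).bind Ev).map
      fun x => x.2.getD (τ a).length false) ?_ (Computable.const false)
  refine Computable.option_map (f := fun a =>
    ((estar (P a) (τ a)).bind (tstar (P a) (τ a))).bind Ev)
    (g := fun a x => x.2.getD (τ a).length false) ?_ ?_
  · refine Computable.option_bind (f := fun a => (estar (P a) (τ a)).bind (tstar (P a) (τ a)))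
      (g := fun _ t => Ev t) ?_ (comp_Ev.comp Computable.snd)
    refine Computable.option_bind (f := fun a => estar (P a) (τ a))
      (g := fun a e => tstar (P a) (τ a) e) (comp_estar hP hτ) ?_
    exact comp_tstar (hP.comp Computable.fst) (hτ.comp Computable.fst) Computable.snd
  · exact (Primrec.list_getD false).to_comp.comp (Computable.snd.comp Computable.snd)
      (Computable.list_length.comp (hτ.comp Computable.fst))

end comp

/-! ### The sets `P` and `Z` -/

/-- The maximum of the `p i`, `i ≤ n`. -/
private def PP (p : ℕ → ℕ) : ℕ → ℕ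
  | 0 => p 0
  | n + 1 => max (PP p n) (p (n + 1))

private theorem le_PP (p : ℕ → ℕ) (n : ℕ) : p n ≤ PP p n := by
  cases n with
  | zero => exact le_rfl
  | succ n => exact le_max_right _ _

private theorem PP_mono (p : ℕ → ℕ) : Monotone (PP p) :=
  monotone_nat_of_le_succ fun _ => le_max_left _ _

private theorem rec_PP (p : ℕ → ℕ) : RecIn p (PP p) := by
  have h1 : RecIn p (fun x => max x.unpair.2.unpair.2 (p (x.unpair.2.unpair.1 + 1))) := by
    refine RecIn.comp₂ (F := fun a b => max a b) Primrec.nat_max.to_comp
      (f := fun x => x.unpair.2.unpair.2) (h := fun x => p (x.unpair.2.unpair.1 + 1)) ?_ ?_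
    · exact RecIn.of_computable ((Computable.snd.comp Computable.unpair).comp
        (Computable.snd.comp Computable.unpair))
    · exact (RecIn.refl p).comp (RecIn.of_computable (Primrec.succ.to_comp.comp
        ((Computable.fst.comp Computable.unpair).comp
          (Computable.snd.comp Computable.unpair))))
  have h2 := RecIn.prec (g := p) (f := fun _ => p 0)
    (RecIn.of_computable (Computable.const _)) h1
  have h3 := h2.comp (h := fun k => Nat.pair 0 k)
    (RecIn.of_computable (Primrec₂.natPair.comp (Primrec.const 0) Primrec.id).to_comp)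
  refine h3.of_eq fun k => ?_
  simp only [Nat.unpair_pair]
  induction k with
  | zero => rfl
  | succ k ih =>
    simp only [ih]
    rfl

/-- The initial segments of the set `Z`. -/
private def tau (P : ℕ → ℕ) : ℕ → List Bool
  | 0 => []
  | n + 1 => tau P n ++ [bit (P n) (tau P n)]

/-- The set `Z`. -/
private def ZZ (P : ℕ → ℕ) (n : ℕ) : Bool := bit (P n) (tau P n)

private theorem pre_ZZ (P : ℕ → ℕ) (n : ℕ) : pre (ZZ P) n = tau P n := by
  induction n with
  | zero => rfl
  | succ n ih =>
    unfold pre at ih ⊢
    rw [List.range_succ, List.map_append, ih]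
    rfl

private theorem rec_tau (P : ℕ → ℕ) : RecIn P fun n => encode (tau P n) := by
  have hcat : Computable₂ (fun (i v : ℕ) => encode (((decode (α := List Bool) i).getD []) ++
      [bit v ((decode (α := List Bool) i).getD [])])) := by
    have hd : Computable fun y : ℕ × ℕ => (decode (α := List Bool) y.1).getD [] :=
      Computable.option_getD (Computable.decode.comp Computable.fst) (Computable.const [])
    refine Computable.encode.comp (Computable.list_append.comp hd ?_)
    exact Primrec.list_cons.to_comp.comp (comp_bit Computable.snd hd) (Computable.const [])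
  have h1 : RecIn P (fun x => encode (((decode (α := List Bool) x.unpair.2.unpair.2).getD []) ++
      [bit (P x.unpair.2.unpair.1) ((decode (α := List Bool) x.unpair.2.unpair.2).getD [])])) := by
    refine RecIn.comp₂ hcat (f := fun x => x.unpair.2.unpair.2)
      (h := fun x => P x.unpair.2.unpair.1) ?_ ?_
    · exact RecIn.of_computable ((Computable.snd.comp Computable.unpair).comp
        (Computable.snd.comp Computable.unpair))
    · exact (RecIn.refl P).comp (RecIn.of_computable ((Computable.fst.comp Computable.unpair).comp
        (Computable.snd.comp Computable.unpair)))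
  have h2 := RecIn.prec (g := P) (f := fun _ => encode ([] : List Bool))
    (RecIn.of_computable (Computable.const _)) h1
  have h3 := h2.comp (h := fun k => Nat.pair 0 k)
    (RecIn.of_computable (Primrec₂.natPair.comp (Primrec.const 0) Primrec.id).to_comp)
  refine h3.of_eq fun k => ?_
  simp only [Nat.unpair_pair]
  induction k with
  | zero => rfl
  | succ k ih =>
    simp only [ih, encodek, Option.getD_some]
    rfl

private theorem rec_ZZ (P : ℕ → ℕ) : RecIn P fun n => (ZZ P n).toNat := by
  refine RecIn.comp₂ (F := fun i v => (bit v ((decode (α := List Bool) i).getD [])).toNat)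
    (f := fun n => encode (tau P n)) (h := P) ?_ (rec_tau P) (RecIn.refl P) |>.of_eq fun n => ?_
  · have hd : Computable fun y : ℕ × ℕ => (decode (α := List Bool) y.1).getD [] :=
      Computable.option_getD (Computable.decode.comp Computable.fst) (Computable.const [])
    have hb : Computable fun y : ℕ × ℕ => bit y.2 ((decode (α := List Bool) y.1).getD []) :=
      comp_bit Computable.snd hd
    refine (Computable.cond hb (Computable.const 1) (Computable.const 0)).of_eq fun y => ?_
    dsimp only
    cases bit y.2 ((decode (α := List Bool) y.1).getD []) <;> rfl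
  · simp only [encodek, Option.getD_some]
    rfl

/-! ### Initial segments -/

private theorem length_pre (Z : ℕ → Bool) (n : ℕ) : (pre Z n).length = n := by
  unfold pre
  rw [List.length_map, List.length_range]

private theorem pre_succ (Z : ℕ → Bool) (n : ℕ) : pre Z (n + 1) = pre Z n ++ [Z n] := by
  unfold pre
  rw [List.range_succ, List.map_append]
  rfl

private theorem pre_mono (Z : ℕ → Bool) {m n : ℕ} (h : m ≤ n) : pre Z m <+: pre Z n := by
  induction n, h using Nat.le_induction with
  | base => exact List.prefix_rfl
  | succ n _ ih => exact ih.trans ⟨[Z n], (pre_succ Z n).symm⟩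

private theorem take_pre (Z : ℕ → Bool) {m n : ℕ} (h : m ≤ n) : (pre Z n).take m = pre Z m := by
  have h1 := List.prefix_iff_eq_take.1 (pre_mono Z h)
  rw [length_pre] at h1
  exact h1.symm

private theorem eq_pre (Z : ℕ → Bool) {m : ℕ} {ρ : List Bool} (h : ρ <+: pre Z m) :
    ρ = pre Z ρ.length := by
  have h1 : ρ.length ≤ m := by
    have := h.length_le
    rwa [length_pre] at this
  rw [← take_pre Z h1]
  exact List.prefix_iff_eq_take.1 h

/-! ### The main claim -/

private theorem bit_eq {P t0 e : ℕ} {τ ρ : List Bool} (hs : satd P τ e = false)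
    (he : e ≤ τ.length) (h0 : isc τ e t0 = true) (ht : t0 < P) (hE : Ev t0 = some (e, ρ))
    (hlt : ∀ t < t0, isc τ e t = false)
    (hgood : ∀ e' < e, satd P τ e' = true ∨ ∀ t, isc τ e' t = false) :
    bit P τ = ρ.getD τ.length false := by
  have h1 : estar P τ = some e := by
    unfold estar
    rw [List.find?_range_eq_some]
    refine ⟨?_, ?_, ?_⟩
    · rw [hs, Bool.not_false, Bool.true_and, List.any_eq_true]
      exact ⟨t0, List.mem_range.2 ht, h0⟩
    · exact List.mem_range.2 (by omega)
    · intro e' he'
      rcases hgood e' he' with h | h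
      · rw [h]
        rfl
      · have h2 : (List.range P).any (isc τ e') = false := by
          rw [List.any_eq_false]
          intro t _
          rw [h t]
          exact Bool.false_ne_true
        rw [h2, Bool.and_false]
        rfl
  have h2 : tstar P τ e = some t0 := by
    unfold tstar
    rw [List.find?_range_eq_some]
    refine ⟨h0, List.mem_range.2 ht, fun t ht => ?_⟩
    rw [hlt t ht]
    rfl
  unfold bit
  rw [h1, Option.bind_some, h2, Option.bind_some, hE]
  rfl

private theorem claim {p : ℕ → ℕ} (hp : ∀ n, n < p n)
    (h : ∀ m, ∃ n ≥ m, ∀ t, newB n t = true → t < p n) (e : ℕ) :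
    (∃ n, W e (pre (ZZ (PP p)) n)) ∨
      ∃ n, ∀ ρ, pre (ZZ (PP p)) n <+: ρ → ¬ W e ρ := by
  induction e using Nat.strong_induction_on with
  | _ e ih =>
    by_contra hcon
    rw [not_or] at hcon
    obtain ⟨ha, hb⟩ := hcon
    have ha' : ∀ n, ¬ W e (pre (ZZ (PP p)) n) := fun n hn => ha ⟨n, hn⟩
    have hb' : ∀ n, ∃ ρ, pre (ZZ (PP p)) n <+: ρ ∧ W e ρ := by
      intro n
      by_contra hn
      exact hb ⟨n, fun ρ h1 h2 => hn ⟨ρ, h1, h2⟩⟩
    -- the smaller codes are settled
    have hgood : ∀ e' ∈ Finset.range e, ∀ᶠ m in Filter.atTop,
        satd (PP p m) (pre (ZZ (PP p)) m) e' = true ∨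
          ∀ t, isc (pre (ZZ (PP p)) m) e' t = false := by
      intro e' he'
      rw [Filter.eventually_atTop]
      rcases ih e' (Finset.mem_range.1 he') with ⟨n, hn⟩ | ⟨n, hn⟩
      · obtain ⟨t, ht⟩ := hn
        refine ⟨max n t, fun m hm => Or.inl ?_⟩
        rw [satd_iff]
        refine ⟨t, ?_, pre (ZZ (PP p)) n, ht, ?_⟩
        · exact lt_of_le_of_lt (le_trans (le_max_right n t) hm)
            (lt_of_lt_of_le (hp m) (le_PP p m))
        · rw [length_pre]
          exact take_pre _ (le_trans (le_max_left n t) hm)
      · refine ⟨n, fun m hm => Or.inr fun t => ?_⟩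
        rw [Bool.eq_false_iff]
        intro ht
        obtain ⟨ρ, h1, h2⟩ := isc_iff.1 ht
        refine hn ρ ?_ ⟨t, h1⟩
        refine (pre_mono _ hm).trans ?_
        rw [← h2]
        exact List.take_prefix _ _
    rw [← Finset.eventually_all, Filter.eventually_atTop] at hgood
    obtain ⟨m0, hm0⟩ := hgood
    obtain ⟨n, hn, hnew⟩ := h (max m0 e)
    have hen : e ≤ n := le_trans (le_max_right _ _) hn
    have hmn : m0 ≤ n := le_trans (le_max_left _ _) hn
    obtain ⟨ρ, hρ, t1, ht1⟩ := hb' n
    have hlen : n ≤ ρ.length := by
      have := hρ.length_le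
      rwa [length_pre] at this
    obtain ⟨t', -, ρ', hn', hE', -, htk⟩ := exists_new hen hlen ht1
    have ht'P : t' < PP p n := lt_of_lt_of_le (hnew t' hn') (le_PP p n)
    have hpreρ : ρ.take n = pre (ZZ (PP p)) n := by
      have := List.prefix_iff_eq_take.1 hρ
      rw [length_pre] at this
      exact this.symm
    have hex : ∃ t, isc (pre (ZZ (PP p)) n) e t = true := by
      refine ⟨t', isc_iff.2 ⟨ρ', hE', ?_⟩⟩
      rw [length_pre, htk, hpreρ]
    have hex' : isc (pre (ZZ (PP p)) n) e t' = true := by
      refine isc_iff.2 ⟨ρ', hE', ?_⟩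
      rw [length_pre, htk, hpreρ]
    classical
    obtain ⟨ρ0, hE0, htk0⟩ := isc_iff.1 (Nat.find_spec hex)
    have ht0 : Nat.find hex < PP p n := lt_of_le_of_lt (Nat.find_min' hex hex') ht'P
    have hlt0 : ∀ t < Nat.find hex, isc (pre (ZZ (PP p)) n) e t = false := by
      intro t ht
      rw [Bool.eq_false_iff]
      exact Nat.find_min hex ht
    rw [length_pre] at htk0
    have hn0 : n ≤ ρ0.length := by
      have := congrArg List.length htk0
      rw [length_pre, List.length_take] at this
      omega
    have key : ∀ m, n ≤ m → m ≤ ρ0.length → pre (ZZ (PP p)) m = ρ0.take m := by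
      intro m hm
      induction m, hm using Nat.le_induction with
      | base => intro _; exact htk0.symm
      | succ m hm ihm =>
        intro hml
        have ihm := ihm (by omega)
        have hl : (tau (PP p) m).length = m := by
          rw [← pre_ZZ, length_pre]
        have hbit : ZZ (PP p) m = ρ0.getD m false := by
          unfold ZZ
          rw [← pre_ZZ]
          have h1 := bit_eq (P := PP p m) (t0 := Nat.find hex) (e := e)
            (τ := pre (ZZ (PP p)) m) (ρ := ρ0) ?_ ?_ ?_ ?_ hE0 ?_ ?_
          · rw [length_pre] at h1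
            exact h1
          · rw [Bool.eq_false_iff]
            intro hs
            obtain ⟨t, _, z, h1, h2⟩ := satd_iff.1 hs
            have h3 : z <+: pre (ZZ (PP p)) m := by
              rw [← h2]
              exact List.take_prefix _ _
            refine ha' z.length ?_
            rw [← eq_pre _ h3]
            exact ⟨t, h1⟩
          · rw [length_pre]
            omega
          · refine isc_iff.2 ⟨ρ0, hE0, ?_⟩
            rw [length_pre, ihm]
          · exact lt_of_lt_of_le ht0 (PP_mono p hm)
          · intro t ht
            rw [Bool.eq_false_iff]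
            intro hc
            obtain ⟨z, h1, h2⟩ := isc_iff.1 hc
            have h3 := hlt0 t ht
            rw [Bool.eq_false_iff] at h3
            refine h3 (isc_iff.2 ⟨z, h1, ?_⟩)
            rw [length_pre] at h2 ⊢
            rw [← take_pre _ hm, ← h2, List.take_take, min_eq_left hm]
          · intro e' he'
            exact hm0 m (le_trans hmn hm) e' (Finset.mem_range.2 he')
        rw [pre_succ, ihm, hbit, List.take_add_one, List.getElem?_eq_getElem (by omega),
          List.getD_eq_getElem _ _ (by omega)]
        rfl
    have hfin := key ρ0.length hn0 le_rfl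
    rw [List.take_length] at hfin
    refine ha' ρ0.length ?_
    rw [hfin]
    exact ⟨_, hE0⟩

theorem case2 {p : ℕ → ℕ} (hp : ∀ n, n < p n)
    (h : ∀ m, ∃ n ≥ m, ∀ t, newB n t = true → t < p n) :
    ∃ Z, FG Z ∧ RecIn p fun n => (Z n).toNat := by
  refine ⟨ZZ (PP p), fun e => ?_, (rec_PP p).trans (rec_ZZ (PP p))⟩
  rcases claim hp h e with h1 | ⟨n, hn⟩
  · exact Or.inl h1
  · right
    intro q hq
    refine ⟨2 * n + q, by omega, fun m hm hW => ?_⟩
    refine hn _ ?_ hW
    have h1 : pre (ZZ (PP p)) n = pre (flp (ZZ (PP p)) (2 * n + q)) n := by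
      unfold pre
      refine List.map_congr_left fun i hi => ?_
      have hi' := List.mem_range.1 hi
      unfold flp
      rw [if_neg (by omega)]
    rw [h1]
    exact pre_mono _ (by omega)

end Pool.Agent.Helper61.RW
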