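import Pool.Agent.Helper61.RW.NewA

/-!
RW module StC: the construction is computable.

PROOFS. Closure properties of Computable: Pool/Agent/Helper30/SatB/Comp.lean (comp_all, comp_any,
comp_map, comp_range, comp_and, comp_or, comp_not), Primrec.list_getD, list_length, nat_add, nat_sub,
nat_max, nat_mod, eq.decide, nat_lt.decide (nat_le.decide), Computable.option_getD, option_map, cond.
Build: comp_vv, comp_cc, comp_nl, comp_Act, comp_gB, comp_satB, comp_rB, comp_step; then
Computable.nat_rec for sts. All definitions are in Defs.lean. Where a statement below uses tuples, the
components are the arguments.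
-/

set_option autoImplicit false

namespace Pool.Agent.Helper61.RW

open Encodable
open Pool.Agent.Helper64.SB
open Pool.Agent.Helper30.SatB

section aux

variable {α : Type} [Primcodable α]

private theorem c_add {f g : α → ℕ} (hf : Computable f) (hg : Computable g) :
    Computable fun a => f a + g a := Primrec.nat_add.to_comp.comp hf hg

private theorem c_sub {f g : α → ℕ} (hf : Computable f) (hg : Computable g) :
    Computable fun a => f a - g a := Primrec.nat_sub.to_comp.comp hf hg

private theorem c_max {f g : α → ℕ} (hf : Computable f) (hg : Computable g) :
    Computable fun a => max (f a) (g a) := Primrec.nat_max.to_comp.comp hf hg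

private theorem c_mod {f g : α → ℕ} (hf : Computable f) (hg : Computable g) :
    Computable fun a => f a % g a := Primrec.nat_mod.to_comp.comp hf hg

private theorem c_lt {f g : α → ℕ} (hf : Computable f) (hg : Computable g) :
    Computable fun a => decide (f a < g a) := Primrec.nat_lt.decide.to_comp.comp hf hg

private theorem c_eq {σ : Type} [Primcodable σ] [DecidableEq σ] {f g : α → σ}
    (hf : Computable f) (hg : Computable g) :
    Computable fun a => decide (f a = g a) := Primrec.eq.decide.to_comp.comp hf hg

private theorem c_getD {σ : Type} [Primcodable σ] {f : α → List σ} {g : α → ℕ} {d : α → σ}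
    (hf : Computable f) (hg : Computable g) (hd : Computable d) :
    Computable fun a => (f a).getD (g a) (d a) := by
  refine (Computable.option_getD (Computable.list_getElem?.comp hf hg) hd).of_eq fun a => ?_
  rw [List.getD_eq_getElem?_getD]

private theorem c_vv {s : α → St} {l : α → ℕ} (hs : Computable s) (hl : Computable l) :
    Computable fun a => vv (s a) (l a) :=
  c_getD (Computable.fst.comp hs) hl
    (c_add (Computable.list_length.comp (Computable.snd.comp hs))
      (c_sub hl (Computable.list_length.comp (Computable.fst.comp hs))))

private theorem c_cc {s : α → St} {b : α → ℕ} (hs : Computable s) (hb : Computable b) :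
    Computable fun a => cc (s a) (b a) := by
  refine Computable.cond (comp_and (c_lt hb (Computable.list_length.comp
    (Computable.snd.comp hs))) (comp_all (Computable.fst.comp hs) ?_)) ?_ (Computable.const none)
  · exact comp_not (c_eq Computable.snd (hb.comp Computable.fst))
  · exact Computable.option_some.comp
      (c_getD (Computable.snd.comp hs) hb (Computable.const false))

private theorem c_nl {s : α → St} {k : α → ℕ} {r : α → List Bool} {M : α → ℕ}
    (hs : Computable s) (hk : Computable k) (hr : Computable r) (hM : Computable M) :
    Computable fun a => nl (s a) (k a) (r a) (M a) := by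
  have h1 : Computable fun a => max ((s a).2.length + k a + 1) (max (r a).length (M a)) :=
    c_max (c_add (c_add (Computable.list_length.comp (Computable.snd.comp hs)) hk)
      (Computable.const 1)) (c_max (Computable.list_length.comp hr) hM)
  exact c_add h1 (c_mod (c_add h1 hk) (Computable.const 2))

private theorem c_Act {s : α → St} {k : α → ℕ} {r : α → List Bool} {M : α → ℕ}
    (hs : Computable s) (hk : Computable k) (hr : Computable r) (hM : Computable M) :
    Computable fun a => Act (s a) (k a) (r a) (M a) := by
  refine Computable.pair (comp_map (comp_range.comp hk) ?_)
    (comp_map (comp_range.comp (c_nl hs hk hr hM)) ?_)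
  · exact c_vv (hs.comp Computable.fst) Computable.snd
  · exact Computable.option_getD (c_cc (hs.comp Computable.fst) Computable.snd)
      (c_getD (hr.comp Computable.fst) Computable.snd (Computable.const false))

private theorem c_gB {s : α → St} {l t : α → ℕ} (hs : Computable s) (hl : Computable l)
    (ht : Computable t) : Computable fun a => gB (s a) (l a) (t a) := by
  have hn : Computable₂ newB := comp_newB
  exact comp_and (hn.comp (c_vv hs hl) ht) (c_lt (c_vv hs (c_add hl (Computable.const 1))) ht)

private theorem c_satB {s : α → St} {e : α → ℕ} {r z : α → List Bool} (hs : Computable s)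
    (he : Computable e) (hr : Computable r) (hz : Computable z) :
    Computable fun a => satB (s a) (e a) (r a) (z a) := by
  refine comp_all (comp_range.comp (Computable.list_length.comp hz)) ?_
  refine comp_or (c_eq (c_cc (hs.comp Computable.fst) Computable.snd)
    (Computable.option_some.comp (c_getD (hz.comp Computable.fst) Computable.snd
      (Computable.const false)))) (comp_and (comp_any (comp_range.comp (he.comp Computable.fst))
      ?_) (c_eq (c_getD (hr.comp Computable.fst) Computable.snd (Computable.const false))
        (c_getD (hz.comp Computable.fst) Computable.snd (Computable.const false))))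
  exact c_eq (Computable.snd.comp Computable.fst)
    (c_vv (hs.comp (Computable.fst.comp Computable.fst)) Computable.snd)

private theorem c_rB {s : α → St} {t e : α → ℕ} {r : α → List Bool} (hs : Computable s)
    (ht : Computable t) (he : Computable e) (hr : Computable r) :
    Computable fun a => rB (s a) (t a) (e a) (r a) := by
  refine comp_and (comp_and (comp_all (comp_range.comp he) ?_)
    (comp_all (comp_range.comp (Computable.list_length.comp hr)) ?_))
    (comp_not (comp_any (comp_range.comp (c_add ht (Computable.const 1))) ?_))
  · exact c_lt (c_vv (hs.comp Computable.fst) Computable.snd)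
      (Computable.list_length.comp (hr.comp Computable.fst))
  · exact comp_not (c_eq (c_cc (hs.comp Computable.fst) Computable.snd)
      (Computable.option_some.comp (comp_not (c_getD (hr.comp Computable.fst) Computable.snd
        (Computable.const false)))))
  · refine comp_exEv (t := fun x : α × ℕ => x.2) Computable.snd ?_
    refine comp_and (c_eq (Computable.fst.comp Computable.snd)
      (he.comp (Computable.fst.comp Computable.fst))) ?_
    exact c_satB (hs.comp (Computable.fst.comp Computable.fst))
      (he.comp (Computable.fst.comp Computable.fst))
      (hr.comp (Computable.fst.comp Computable.fst)) (Computable.snd.comp Computable.snd)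

private theorem c_step {t : α → ℕ} {s : α → St} (ht : Computable t) (hs : Computable s) :
    Computable fun a => step (t a) (s a) := by
  have hu : Computable fun a => (t a).unpair.1 :=
    Computable.fst.comp (Computable.unpair.comp ht)
  have hu1 : Computable fun a => (t a).unpair.1.unpair.1 :=
    Computable.fst.comp (Computable.unpair.comp hu)
  have hu2 : Computable fun a => (t a).unpair.1.unpair.2 :=
    Computable.snd.comp (Computable.unpair.comp hu)
  refine Computable.cond (c_gB hs hu1 hu2) (c_Act hs (c_add hu1 (Computable.const 1))
    (Computable.const []) hu2) ?_
  refine Computable.option_getD (Computable.option_map (comp_Ev.comp hu) ?_) hs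
  exact Computable.cond (c_rB (hs.comp Computable.fst) (ht.comp Computable.fst)
    (Computable.fst.comp Computable.snd) (Computable.snd.comp Computable.snd))
    (c_Act (hs.comp Computable.fst) (Computable.fst.comp Computable.snd)
      (Computable.snd.comp Computable.snd) (Computable.const 0)) (hs.comp Computable.fst)

end aux

theorem comp_vv : Computable₂ vv := c_vv Computable.fst Computable.snd

theorem comp_cc : Computable₂ cc := c_cc Computable.fst Computable.snd

theorem comp_Act :
    Computable fun x : St × ℕ × List Bool × ℕ => Act x.1 x.2.1 x.2.2.1 x.2.2.2 :=
  c_Act Computable.fst (Computable.fst.comp Computable.snd)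
    (Computable.fst.comp (Computable.snd.comp Computable.snd))
    (Computable.snd.comp (Computable.snd.comp Computable.snd))

theorem comp_gB : Computable fun x : St × ℕ × ℕ => gB x.1 x.2.1 x.2.2 :=
  c_gB Computable.fst (Computable.fst.comp Computable.snd)
    (Computable.snd.comp Computable.snd)

theorem comp_satB :
    Computable fun x : St × ℕ × List Bool × List Bool => satB x.1 x.2.1 x.2.2.1 x.2.2.2 :=
  c_satB Computable.fst (Computable.fst.comp Computable.snd)
    (Computable.fst.comp (Computable.snd.comp Computable.snd))
    (Computable.snd.comp (Computable.snd.comp Computable.snd))

theorem comp_rB :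
    Computable fun x : St × ℕ × ℕ × List Bool => rB x.1 x.2.1 x.2.2.1 x.2.2.2 :=
  c_rB Computable.fst (Computable.fst.comp Computable.snd)
    (Computable.fst.comp (Computable.snd.comp Computable.snd))
    (Computable.snd.comp (Computable.snd.comp Computable.snd))

theorem comp_step : Computable₂ step := c_step Computable.fst Computable.snd

theorem comp_SS : Computable₂ SS := by
  have h1 : Computable sts := by
    refine Computable.nat_rec (f := fun t : ℕ => t) (g := fun _ => (([], []) : St))
      (h := fun _ (x : ℕ × St) => step x.1 x.2) Computable.id (Computable.const _) ?_
    exact c_step (Computable.fst.comp Computable.snd) (Computable.snd.comp Computable.snd)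
  exact c_cc (h1.comp Computable.fst) Computable.snd

end Pool.Agent.Helper61.RW
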