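import Pool.Agent.Helper61.RW.InjA
import Pool.Agent.Helper61.RW.StC

/-!
RW module Constr: the construction gives a structure `Con SS v`.

PROOF. For every l let s l be a stage from `injury l`; v l := vv (sts (s l)) l; by `stable`
vv (sts t) l = v l for all t ≥ s l. More generally for a finite bound K there is a stage after which
no act of index ≤ K happens and vv (sts t) l = v l for all l ≤ K (injury K, stable, compare at a
common later stage).
* comp: comp_SS. mono: cc_mono. smono, parity: inv_sts at a late stage (compare l and l+1,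
  strictMono_nat_of_lt_succ).
* opn: if SS t b = none for all t: let t be a stage with vv (sts t') l = v l for all t' ≥ t, l ≤ b; by
  cc_none_iff b = vv (sts t) l for some l, and l ≤ vv (sts t) l = b (StrictMono.le_apply / id_le), so
  b = v l. Conversely if SS t (v l) = some u, then by cc_mono at all later stages t', but for t' late
  v l = vv (sts t') l is open (cc_none_iff), contradiction.
* gap: suppose newB (v l) t' and v (l+1) < t'. Take s after which no act of index ≤ l + 1 happens and
  vv . j = v j for j ≤ l + 1, and a stage t ≥ s with t.unpair.1 = Nat.pair l t' (t = Nat.pair (Nat.pair l t') s,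
  Nat.right_le_pair). Then gB (sts t) l t' = true, so GA t (l+1) by step_growth, contradiction.
* gen: Y extends all the closings. Let e be given. CLAIM: if Y' also extends all the closings,
  Y' (v l) = Y (v l) for all l < e and W e (pre Y' n), then ∃ m, W e (pre Y m).
  Proof: enlarge n (W_up: pre Y' n <+: pre Y' n') so that v l < n for l < e. Let Ev x = some (e, pre Y' n),
  K = max e (x.unpair.1 + 1), s a stage after which no act of index ≤ K happens and vv . j = v j for
  j ≤ K, t = Nat.pair x s ≥ s. gB (sts t) x.unpair.1 x.unpair.2 = false, otherwise GA t (x.unpair.1 + 1) by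
  step_growth. So rB (sts t) t e (pre Y' n) = false by step_req. But vv (sts t) l = v l < n for l < e, and
  cc (sts t) b = some u implies u = Y' b. So the third part of rB fails: there are x' ≤ t and z with
  Ev x' = some (e, z), satB (sts t) e (pre Y' n) z = true. Then z = pre Y z.length: for b < z.length either
  cc (sts t) b = some (z.getD b false), so Y b = z.getD b false; or b = vv (sts t) l = v l with l < e and
  z.getD b false = (pre Y' n).getD b false = Y' b = Y b (b < n). So W e (pre Y z.length).
  FG Y: if there is no m with W e (pre Y m), then for p < 2 let l ∈ {e, e+1} with l % 2 = p, b = v l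
  (b % 2 = p by parity). For n > b: Y' = flp Y b extends all closings (v l is open by opn) and agrees with
  Y at v l' for l' < e ≤ l (smono injective), so ¬ W e (pre Y' n) by the claim.
-/

set_option autoImplicit false

namespace Pool.Agent.Helper61.RW

open Pool.Agent.Helper64.SB

/-- A late stage. -/
theorem late_stage (v : ℕ → ℕ) (hv : ∀ l, ∃ s, ∀ t ≥ s, vv (sts t) l = v l) (K : ℕ) :
    ∃ s, ∀ t ≥ s, (∀ j ≤ K, ¬ GA t j ∧ ¬ RA t j) ∧ ∀ l ≤ K, vv (sts t) l = v l := by
  obtain ⟨s, hs⟩ := injury K
  have h1 : ∀ L, ∃ s', ∀ t ≥ s', ∀ l < L, vv (sts t) l = v l := by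
    intro L
    induction L with
    | zero => exact ⟨0, fun t _ l hl => absurd hl (by omega)⟩
    | succ L ih =>
      obtain ⟨s1, h1⟩ := ih
      obtain ⟨s2, h2⟩ := hv L
      refine ⟨max s1 s2, fun t ht l hl => ?_⟩
      rcases Nat.lt_succ_iff_lt_or_eq.mp hl with hl | rfl
      · exact h1 t (le_trans (le_max_left _ _) ht) l hl
      · exact h2 t (le_trans (le_max_right _ _) ht)
  obtain ⟨s', hs'⟩ := h1 (K + 1)
  exact ⟨max s s', fun t ht => ⟨hs t (le_trans (le_max_left _ _) ht), fun l hl =>
    hs' t (le_trans (le_max_right _ _) ht) l (by omega)⟩⟩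

theorem pre_getD (Z : ℕ → Bool) {n b : ℕ} (h : b < n) : (pre Z n).getD b false = Z b := by
  unfold pre
  rw [List.getD_eq_getElem?_getD, List.getElem?_map, List.getElem?_range h]
  rfl

theorem pre_length (Z : ℕ → Bool) (n : ℕ) : (pre Z n).length = n := by simp [pre]

theorem pre_prefix (Z : ℕ → Bool) {n m : ℕ} (h : n ≤ m) : pre Z n <+: pre Z m := by
  unfold pre
  obtain ⟨k, rfl⟩ := Nat.exists_eq_add_of_le h
  rw [List.range_add, List.map_append]
  exact List.prefix_append _ _

theorem eq_pre {z : List Bool} {Y : ℕ → Bool} (h : ∀ b < z.length, Y b = z.getD b false) :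
    z = pre Y z.length := by
  refine List.ext_getElem (by rw [pre_length]) fun i h1 h2 => ?_
  have h3 := h i h1
  have h4 := pre_getD Y h1
  rw [List.getD_eq_getElem?_getD, List.getElem?_eq_getElem h2, Option.getD_some] at h4
  rw [List.getD_eq_getElem?_getD, List.getElem?_eq_getElem h1, Option.getD_some] at h3
  rw [h4, h3]

theorem construction : ∃ v : ℕ → ℕ, Con SS v := by
  have h0 : ∀ l, ∃ x, ∃ s, ∀ t ≥ s, vv (sts t) l = x := by
    intro l
    obtain ⟨s, hs⟩ := injury l
    exact ⟨vv (sts s) l, s, fun t ht => stable hs t ht l le_rfl⟩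
  choose v hv using h0
  have hlate := late_stage v hv
  have hsm : StrictMono v := by
    refine strictMono_nat_of_lt_succ fun l => ?_
    obtain ⟨s, hs⟩ := hlate (l + 1)
    obtain ⟨_, h1⟩ := hs s le_rfl
    rw [← h1 l (by omega), ← h1 (l + 1) le_rfl]
    exact (inv_sts s).1 (Nat.lt_succ_self l)
  have hopen : ∀ t l, SS t (v l) = none := by
    intro t l
    by_contra hcon
    obtain ⟨u, hu⟩ := Option.ne_none_iff_exists'.mp hcon
    obtain ⟨s, hs⟩ := hv l
    have h1 := cc_mono (le_max_right s t) hu
    have h2 : cc (sts (max s t)) (v l) = none :=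
      cc_none_iff.mpr ⟨l, (hs _ (le_max_left s t)).symm⟩
    rw [h2] at h1
    cases h1
  have hpar : ∀ l, v l % 2 = l % 2 := by
    intro l
    obtain ⟨s, hs⟩ := hv l
    rw [← hs s le_rfl]
    exact (inv_sts s).2 l
  refine ⟨v, ⟨comp_SS, fun t t' b u h hu => cc_mono h hu, hsm, hpar, fun b => ⟨fun h => ?_, ?_⟩,
    ?_, ?_⟩⟩
  · obtain ⟨s, hs⟩ := hlate b
    obtain ⟨_, h1⟩ := hs s le_rfl
    obtain ⟨l, hl⟩ := cc_none_iff.mp (h s)
    have h2 : l ≤ vv (sts s) l := (inv_sts s).1.le_apply
    exact ⟨l, by rw [← h1 l (by omega)]; exact hl⟩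
  · rintro ⟨l, rfl⟩ t
    exact hopen t l
  · intro l t' hnew
    by_contra hcon
    obtain ⟨s, hs⟩ := hlate (l + 1)
    have ht : s ≤ Nat.pair (Nat.pair l t') s := Nat.right_le_pair _ _
    obtain ⟨h1, h2⟩ := hs _ ht
    have hg : gB (sts (Nat.pair (Nat.pair l t') s)) l t' = true := by
      unfold gB
      rw [h2 l (by omega), h2 (l + 1) le_rfl, hnew]
      simp [not_le.mp hcon]
    exact (h1 (l + 1) le_rfl).1 (step_growth (by rw [Nat.unpair_pair]) hg)
  · intro Y hY e
    have claim : ∀ Y' : ℕ → Bool, (∀ t b u, SS t b = some u → Y' b = u) →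
        (∀ l < e, Y' (v l) = Y (v l)) → ∀ n, W e (pre Y' n) → ∃ m, W e (pre Y m) := by
      intro Y' hY' hag n hW
      obtain ⟨n', hn', hn''⟩ : ∃ n', n ≤ n' ∧ ∀ l < e, v l < n' := by
        refine ⟨max n (v e), le_max_left _ _, fun l hl => ?_⟩
        exact (hsm hl).trans_le (le_max_right _ _)
      obtain ⟨x, hx⟩ : W e (pre Y' n') := W_up hW (pre_prefix Y' hn')
      obtain ⟨s, hs⟩ := hlate (max e (x.unpair.1 + 1))
      have ht : s ≤ Nat.pair x s := Nat.right_le_pair _ _
      obtain ⟨h1, h2⟩ := hs _ ht
      have hx1 : (Nat.pair x s).unpair.1 = x := by rw [Nat.unpair_pair]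
      generalize Nat.pair x s = t at ht h1 h2 hx1
      have hg : gB (sts t) t.unpair.1.unpair.1 t.unpair.1.unpair.2 = false := by
        by_contra hcon
        rw [Bool.not_eq_false] at hcon
        have h3 := step_growth (Nat.pair_unpair _).symm hcon
        exact (h1 (t.unpair.1.unpair.1 + 1) (by rw [hx1]; exact le_max_right _ _)).1 h3
      have hr : rB (sts t) t e (pre Y' n') = false := by
        by_contra hcon
        rw [Bool.not_eq_false] at hcon
        exact (h1 e (le_max_left _ _)).2 (step_req (by rw [hx1]; exact hx) hg hcon)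
      have h3 : ∃ x' z, Ev x' = some (e, z) ∧ satB (sts t) e (pre Y' n') z = true := by
        by_contra hcon
        push Not at hcon
        have h4 : rB (sts t) t e (pre Y' n') = true := by
          unfold rB
          rw [Bool.and_eq_true, Bool.and_eq_true]
          refine ⟨⟨?_, ?_⟩, ?_⟩
          · rw [List.all_eq_true]
            intro l hl
            rw [List.mem_range] at hl
            rw [decide_eq_true_eq, pre_length, h2 l (by omega)]
            exact hn'' l hl
          · rw [List.all_eq_true]
            intro b hb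
            rw [List.mem_range, pre_length] at hb
            rw [pre_getD Y' hb, Bool.not_eq_true', decide_eq_false_iff_not]
            intro h5
            have := hY' t b _ h5
            cases hyb : Y' b <;> rw [hyb] at this <;> cases this
          · rw [Bool.not_eq_true', List.any_eq_false]
            intro x' _
            rw [exEv_iff]
            rintro ⟨e', z, h5, h6⟩
            rw [Bool.and_eq_true, decide_eq_true_eq] at h6
            obtain ⟨rfl, h6⟩ := h6
            exact hcon x' z h5 h6
        rw [h4] at hr
        cases hr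
      obtain ⟨x', z, h5, h6⟩ := h3
      have h7 : z = pre Y z.length := by
        refine eq_pre fun b hb => ?_
        unfold satB at h6
        rw [List.all_eq_true] at h6
        have h8 := h6 b (List.mem_range.mpr hb)
        rw [Bool.or_eq_true, Bool.and_eq_true, decide_eq_true_eq, decide_eq_true_eq] at h8
        rcases h8 with h8 | ⟨h8, h9⟩
        · exact hY t b _ h8
        · rw [List.any_eq_true] at h8
          obtain ⟨l, hl, hb'⟩ := h8
          rw [List.mem_range] at hl
          rw [decide_eq_true_eq, h2 l (by omega)] at hb'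
          rw [← h9, hb', pre_getD Y' (hn'' l hl), hag l hl]
      exact ⟨z.length, x', by rw [← h7]; exact h5⟩
    by_cases hex : ∃ m, W e (pre Y m)
    · exact Or.inl hex
    · right
      intro p hp
      obtain ⟨l, hl, hlp⟩ : ∃ l ≥ e, l % 2 = p := by
        rcases Nat.mod_two_eq_zero_or_one e with h | h
        · rcases (by omega : p = 0 ∨ p = 1) with rfl | rfl
          · exact ⟨e, le_rfl, h⟩
          · exact ⟨e + 1, by omega, by omega⟩
        · rcases (by omega : p = 0 ∨ p = 1) with rfl | rfl
          · exact ⟨e + 1, by omega, by omega⟩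
          · exact ⟨e, le_rfl, h⟩
      refine ⟨v l, by rw [hpar, hlp], fun n _ hW => hex (claim (flp Y (v l)) ?_ ?_ n hW)⟩
      · intro t b u hu
        unfold flp
        have : b ≠ v l := by
          rintro rfl
          rw [hopen] at hu
          cases hu
        rw [if_neg this]
        exact hY t b u hu
      · intro l' hl'
        unfold flp
        have : v l' ≠ v l := fun h => by
          have := hsm.injective h
          omega
        rw [if_neg this]

end Pool.Agent.Helper61.RW
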