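import Pool.Agent.Helper64.SB.Re
import Pool.Agent.Helper30.SatB.Comp

/-!
# MP_e8ba80_lc: no solution of minimal degree. Definitions.
-/

set_option autoImplicit false

namespace Pool.Agent.Helper61.RW

open Nat.Partrec (Code)
open Encodable

/-- The first `n` bits of `Z`. -/
def pre (Z : ℕ → Bool) (n : ℕ) : List Bool := (List.range n).map Z

/-- The event number `t`: a pair of a code and a string. -/
def Ev (t : ℕ) : Option (ℕ × List Bool) :=
  (decode (α := (ℕ × ℕ) × List Bool × List Bool) t).bind fun x =>
    bif (Code.evaln x.1.2 (Denumerable.ofNat Code x.1.1) (encode x.2.1)).isSome then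
      some (x.1.1, x.2.1 ++ x.2.2) else none

/-- The upward closed c.e. set of strings with code `e`. -/
def W (e : ℕ) (ρ : List Bool) : Prop := ∃ t, Ev t = some (e, ρ)

/-- Change one bit. -/
def flp (Z : ℕ → Bool) (b : ℕ) : ℕ → Bool := fun i => if i = b then !Z b else Z i

/-- Flip-generic sets. -/
def FG (Z : ℕ → Bool) : Prop :=
  ∀ e, (∃ n, W e (pre Z n)) ∨ ∀ p < 2, ∃ b, b % 2 = p ∧ ∀ n > b, ¬ W e (pre (flp Z b) n)

/-- The event `t` exists and satisfies `q`. -/
def exEv (t : ℕ) (q : ℕ × List Bool → Bool) : Bool := ((Ev t).map q).getD false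

/-- The event `t` is the first one with its code and its first `n` bits. -/
def newB (n t : ℕ) : Bool :=
  exEv t fun x => (decide (x.1 ≤ n) && decide (n ≤ x.2.length)) &&
    (List.range t).all fun t' => !(exEv t' fun y =>
      (decide (y.1 = x.1) && decide (n ≤ y.2.length)) && decide (y.2.take n = x.2.take n))

/-- States: the list of the open positions below the length, and the values. -/
abbrev St := List ℕ × List Bool

/-- The `l`-th open position. -/
def vv (s : St) (l : ℕ) : ℕ := s.1.getD l (s.2.length + (l - s.1.length))

/-- The value at a closed position. -/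
def cc (s : St) (b : ℕ) : Option Bool :=
  bif decide (b < s.2.length) && s.1.all (fun i => !decide (i = b)) then
    some (s.2.getD b false) else none

/-- The new length. -/
def nl (s : St) (k : ℕ) (ρ : List Bool) (M : ℕ) : ℕ :=
  max (s.2.length + k + 1) (max ρ.length M) +
    (max (s.2.length + k + 1) (max ρ.length M) + k) % 2

/-- Close everything below the new length except the first `k` open positions. -/
def Act (s : St) (k : ℕ) (ρ : List Bool) (M : ℕ) : St :=
  ((List.range k).map (vv s),
    (List.range (nl s k ρ M)).map fun b => (cc s b).getD (ρ.getD b false))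

/-- Growth condition. -/
def gB (s : St) (l t' : ℕ) : Bool := newB (vv s l) t' && decide (vv s (l + 1) < t')

/-- The string `z` is decided: closed, or open of index `< e` and agreeing with `ρ`. -/
def satB (s : St) (e : ℕ) (ρ z : List Bool) : Bool :=
  (List.range z.length).all fun b =>
    decide (cc s b = some (z.getD b false)) ||
      ((List.range e).any (fun l => decide (b = vv s l)) &&
        decide (ρ.getD b false = z.getD b false))

/-- Requirement condition for the string `ρ` with code `e` at stage `t`. -/
def rB (s : St) (t e : ℕ) (ρ : List Bool) : Bool :=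
  ((List.range e).all (fun l => decide (vv s l < ρ.length)) &&
    (List.range ρ.length).all (fun b => !decide (cc s b = some (!ρ.getD b false)))) &&
  !((List.range (t + 1)).any fun x' => exEv x' fun z => decide (z.1 = e) && satB s e ρ z.2)

/-- One step of the construction. -/
def step (t : ℕ) (s : St) : St :=
  bif gB s t.unpair.1.unpair.1 t.unpair.1.unpair.2 then
    Act s (t.unpair.1.unpair.1 + 1) [] t.unpair.1.unpair.2
  else
    ((Ev t.unpair.1).map fun y => bif rB s t y.1 y.2 then Act s y.1 y.2 0 else s).getD s

/-- The state at stage `t`. -/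
def sts (t : ℕ) : St := Nat.rec ([], []) (fun t s => step t s) t

/-- The closing at stage `t`. -/
def SS (t b : ℕ) : Option Bool := cc (sts t) b

/-- What is used of the construction. -/
structure Con (S : ℕ → ℕ → Option Bool) (v : ℕ → ℕ) : Prop where
  comp : Computable₂ S
  mono : ∀ t t' b u, t ≤ t' → S t b = some u → S t' b = some u
  smono : StrictMono v
  parity : ∀ l, v l % 2 = l % 2
  opn : ∀ b, (∀ t, S t b = none) ↔ ∃ l, b = v l
  gap : ∀ l t, newB (v l) t = true → t ≤ v (l + 1)
  gen : ∀ Y : ℕ → Bool, (∀ t b u, S t b = some u → Y b = u) → FG Y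

/-- Parity of the bits of `f` below `x`. -/
def par (f : ℕ → Bool) (x : ℕ) : Bool := Nat.rec false (fun b r => r ^^ f b) x

/-- The leftmost string at level `y`. -/
def sg (S : ℕ → ℕ → Option Bool) (y x : ℕ) : Bool := par (fun b => (S y b).getD false) x

/-- The tree. -/
def inT (S : ℕ → ℕ → Option Bool) (σ : List Bool) : Bool :=
  (List.range (σ.length - 1)).all fun b =>
    ((S σ.length b).map fun u => decide ((σ.getD b false ^^ σ.getD (b + 1) false) = u)).getD true

/-- The tournament. -/
def RR (S : ℕ → ℕ → Option Bool) (x y : ℕ) : Bool :=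
  bif decide (x < y) then sg S y x else bif decide (y < x) then !sg S x y else false

end Pool.Agent.Helper61.RW
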