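import Pool.Agent.Helper61.RW.TreeA
import Pool.Agent.Helper64.SB.Search

/-!
RW module EMp: an infinite transitive set U of the tournament computes a function p with homogeneous
range.

PROOF. Notation: for k ∈ ℕ, Cut k σ: σ.length = k, inT S σ = true and for all x, x' < k in U:
RR S x x' = true → σ.getD x' false = true → σ.getD x false = true.
(1) For every k there is σ with Cut k σ: take y ∈ U, y ≥ k, σ = (range k).map (sg S y) (inT_sg); for
    x, x' ∈ U, x, x' < k ≤ y: sg S y x = RR S x y; RR x x' and RR x' y give RR x y by transitivity.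
(2) Cut k' σ, k ≤ k' → Cut k (σ.take k) (inT_prefix).
(3) Cut k σ, Cut k σ' → (∀ x ∈ U, x < k, σ x → σ' x) ∨ (∀ x ∈ U, x < k, σ' x → σ x): otherwise there are
    x with σ x = 1, σ' x = 0 and x' with σ' x' = 1, σ x' = 0; x ≠ x', and RR x x' or RR x' x (RR_ne).
    RR x x': σ' x' = 1 gives σ' x = 1. RR x' x: σ x = 1 gives σ x' = 1. Contradictions.
(4) L k j := j ∈ U ∧ j < k ∧ ∀ σ, Cut k σ → σ.getD j false = true; L j := ∃ k, L k j. L k j and k ≤ k' → L k' j by (2).
    For every N there is σ with inT S σ, σ.length = N and for all x ∈ U, x < N: σ x = true ↔ L x.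
    Proof: choose k ≥ N with L k x for all x < N with L x (finitely many). For a list F of elements
    x ∈ U, x < N, ¬ L x there is σ with Cut k σ and σ x = 0 for all x ∈ F (induction on F: (1); for a new x
    there is a cut σ_x with σ_x x = 0 as ¬ L k x; by (3) one of the two cuts is contained in the other, take
    the smaller one). Take F = all of them, and σ.take N.
(5) Case A: {j | L j} is infinite. Search (SB.search) relative to g = fun n => (U n).toNat:
    P ζ m j := decide (m < j) && decide (j < ζ.length) && decide (ζ.getD j 0 = 1) && for all σ in the list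
    of all Bool lists of length ζ.length (a computable list: al 0 = [[]], al (k+1) = (al k).flatMap
    (fun l => [l ++ [false], l ++ [true]])): !(cutB ζ σ) || σ.getD j false, where cutB ζ σ is the Boolean test
    for inT S σ and the cut condition (comp_inT, comp_RR, comp_all). P (ini g k) m j ↔ m < j ∧ L k j.
    So there is p with RecIn g p, m < p m and L (p m); by (4) hcol holds with col = true.
    Case B: {j | L j} is finite: all j with L j are < B. Search P ζ m j := decide (max m B < j) &&
    decide (ζ.getD j 0 = 1) (and j < ζ.length). p m ∈ U, p m > m, ¬ L (p m): col = false by (4).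
-/

set_option autoImplicit false

namespace Pool.Agent.Helper61.RW

open Encodable
open Pool.Agent.Helper64.SB
open Pool.Agent.Helper30.SatB

namespace EMp

/-- Cuts of the part of `U` below `k`. -/
private def Cut (S : ℕ → ℕ → Option Bool) (U : ℕ → Bool) (k : ℕ) (σ : List Bool) : Prop :=
  σ.length = k ∧ inT S σ = true ∧ ∀ x x', x < k → x' < k → U x = true → U x' = true →
    RR S x x' = true → σ.getD x' false = true → σ.getD x false = true

private theorem getD_map_range (f : ℕ → Bool) {k x : ℕ} (h : x < k) :
    ((List.range k).map f).getD x false = f x := by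
  rw [List.getD_eq_getElem?_getD, List.getElem?_map, List.getElem?_range h]
  rfl

private theorem getD_take (σ : List Bool) {k x : ℕ} (h : x < k) :
    (σ.take k).getD x false = σ.getD x false := by
  rw [List.getD_eq_getElem?_getD, List.getD_eq_getElem?_getD, List.getElem?_take_of_lt h]

private theorem RR_lt (S : ℕ → ℕ → Option Bool) {x y : ℕ} (h : x < y) : RR S x y = sg S y x := by
  simp [RR, h]

private theorem exists_cut {S : ℕ → ℕ → Option Bool} {v : ℕ → ℕ} (hS : Con S v) {U : ℕ → Bool}
    (hinf : {n | U n = true}.Infinite)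
    (htr : ∀ x y z, U x = true → U y = true → U z = true →
      RR S x y = true → RR S y z = true → RR S x z = true) (k : ℕ) :
    ∃ σ, Cut S U k σ := by
  obtain ⟨y, hy, hky⟩ := hinf.exists_gt k
  refine ⟨(List.range k).map (sg S y), by simp, inT_sg hS (le_of_lt hky), ?_⟩
  intro x x' hx hx' hU hU' hR hs
  rw [getD_map_range _ hx'] at hs
  rw [getD_map_range _ hx]
  rw [← RR_lt S (by omega : x' < y)] at hs
  rw [← RR_lt S (by omega : x < y)]
  exact htr x x' y hU hU' hy hR hs

private theorem Cut.take {S : ℕ → ℕ → Option Bool} {v : ℕ → ℕ} (hS : Con S v) {U : ℕ → Bool}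
    {k k' : ℕ} (h : k ≤ k') {σ : List Bool} (hσ : Cut S U k' σ) : Cut S U k (σ.take k) := by
  obtain ⟨h1, h2, h3⟩ := hσ
  refine ⟨by rw [List.length_take]; omega, inT_prefix hS (List.take_prefix _ _) h2, ?_⟩
  intro x x' hx hx' hU hU' hR hs
  rw [getD_take σ hx'] at hs
  rw [getD_take σ hx]
  exact h3 x x' (by omega) (by omega) hU hU' hR hs

private theorem Cut.dich {S : ℕ → ℕ → Option Bool} {U : ℕ → Bool} {k : ℕ} {σ σ' : List Bool}
    (h : Cut S U k σ) (h' : Cut S U k σ') :
    (∀ x, U x = true → x < k → σ.getD x false = true → σ'.getD x false = true) ∨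
    (∀ x, U x = true → x < k → σ'.getD x false = true → σ.getD x false = true) := by
  by_contra hcon
  rw [not_or] at hcon
  obtain ⟨h1, h2⟩ := hcon
  push Not at h1 h2
  obtain ⟨x, hx, hxk, hs, hs'⟩ := h1
  obtain ⟨x', hx', hxk', ht', ht⟩ := h2
  have hne : x ≠ x' := by
    rintro rfl
    exact ht hs
  cases hR : RR S x x'
  · have hR' : RR S x' x = true := by
      rw [RR_ne S x' x hne.symm]
      exact hR
    exact ht (h.2.2 x' x hxk' hxk hx' hx hR' hs)
  · exact hs' (h'.2.2 x x' hxk hxk' hx hx' hR ht')

private def L (S : ℕ → ℕ → Option Bool) (U : ℕ → Bool) (k j : ℕ) : Prop :=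
  U j = true ∧ j < k ∧ ∀ σ, Cut S U k σ → σ.getD j false = true

private theorem L.mono {S : ℕ → ℕ → Option Bool} {v : ℕ → ℕ} (hS : Con S v) {U : ℕ → Bool}
    {k k' j : ℕ} (h : L S U k j) (hk : k ≤ k') : L S U k' j := by
  obtain ⟨h1, h2, h3⟩ := h
  refine ⟨h1, by omega, fun σ hσ => ?_⟩
  have h4 := h3 _ (hσ.take hS hk)
  rwa [getD_take σ h2] at h4

private theorem exists_min {S : ℕ → ℕ → Option Bool} {v : ℕ → ℕ} (hS : Con S v) {U : ℕ → Bool}
    (hinf : {n | U n = true}.Infinite)
    (htr : ∀ x y z, U x = true → U y = true → U z = true →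
      RR S x y = true → RR S y z = true → RR S x z = true) (k : ℕ) (F : List ℕ)
    (hF : ∀ x ∈ F, U x = true ∧ x < k ∧ ¬ L S U k x) :
    ∃ σ, Cut S U k σ ∧ ∀ x ∈ F, σ.getD x false = false := by
  induction F with
  | nil =>
    obtain ⟨σ, hσ⟩ := exists_cut hS hinf htr k
    exact ⟨σ, hσ, by simp⟩
  | cons x F ih =>
    obtain ⟨σ, hσ, hσF⟩ := ih fun z hz => hF z (List.mem_cons_of_mem _ hz)
    obtain ⟨hx1, hx2, hx3⟩ := hF x List.mem_cons_self
    have h1 : ∃ σ', Cut S U k σ' ∧ σ'.getD x false = false := by
      by_contra hcon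
      push Not at hcon
      apply hx3
      refine ⟨hx1, hx2, fun σ' h' => ?_⟩
      have := hcon σ' h'
      cases hh : σ'.getD x false
      · exact absurd hh this
      · rfl
    obtain ⟨σ', hσ', hx'⟩ := h1
    rcases hσ.dich hσ' with hd | hd
    · refine ⟨σ, hσ, fun z hz => ?_⟩
      rcases List.mem_cons.mp hz with rfl | hz
      · cases hh : σ.getD z false
        · rfl
        · rw [hd z hx1 hx2 hh] at hx'
          exact absurd hx' (by simp)
      · exact hσF z hz
    · refine ⟨σ', hσ', fun z hz => ?_⟩
      rcases List.mem_cons.mp hz with rfl | hz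
      · exact hx'
      · obtain ⟨hz1, hz2, -⟩ := hF z (List.mem_cons_of_mem _ hz)
        cases hh : σ'.getD z false
        · rfl
        · have h2 := hd z hz1 hz2 hh
          rw [hσF z hz] at h2
          exact absurd h2 (by simp)

private theorem key {S : ℕ → ℕ → Option Bool} {v : ℕ → ℕ} (hS : Con S v) {U : ℕ → Bool}
    (hinf : {n | U n = true}.Infinite)
    (htr : ∀ x y z, U x = true → U y = true → U z = true →
      RR S x y = true → RR S y z = true → RR S x z = true) (N : ℕ) :
    ∃ σ : List Bool, inT S σ = true ∧ σ.length = N ∧ ∀ x, U x = true → x < N →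
      (σ.getD x false = true ↔ ∃ k, L S U k x) := by
  classical
  have hf : ∀ x, ∃ k', (∃ k, L S U k x) → L S U k' x := by
    intro x
    by_cases h : ∃ k, L S U k x
    · obtain ⟨k, hk⟩ := h
      exact ⟨k, fun _ => hk⟩
    · exact ⟨0, fun h' => absurd h' h⟩
  choose f hf using hf
  obtain ⟨k, hk⟩ : ∃ k, k = N + (Finset.range N).sup f := ⟨_, rfl⟩
  have hNk : N ≤ k := by omega
  have hkL : ∀ x, x < N → (∃ k, L S U k x) → L S U k x := by
    intro x hx h
    refine (hf x h).mono hS ?_
    have : f x ≤ (Finset.range N).sup f := Finset.le_sup (f := f) (Finset.mem_range.2 hx)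
    omega
  obtain ⟨σ, hσ, hσF⟩ := exists_min hS hinf htr k
    ((List.range N).filter fun x => decide (U x = true ∧ ¬ L S U k x)) (by
      intro x hx
      rw [List.mem_filter, List.mem_range, decide_eq_true_eq] at hx
      exact ⟨hx.2.1, by omega, hx.2.2⟩)
  refine ⟨σ.take N, inT_prefix hS (List.take_prefix _ _) hσ.2.1, ?_, fun x hx hxN => ?_⟩
  · rw [List.length_take, hσ.1]
    omega
  · rw [getD_take σ hxN]
    constructor
    · intro h
      by_contra hcon
      have h1 : σ.getD x false = false := by
        apply hσF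
        rw [List.mem_filter, List.mem_range, decide_eq_true_eq]
        exact ⟨hxN, hx, fun hL => hcon ⟨k, hL⟩⟩
      rw [h1] at h
      exact absurd h (by simp)
    · intro h
      exact (hkL x hxN h).2.2 σ hσ

/-- All Boolean lists of length `n`. -/
private def al (n : ℕ) : List (List Bool) :=
  Nat.rec [[]] (fun _ l => l.flatMap fun s => [s ++ [false], s ++ [true]]) n

private theorem mem_al (n : ℕ) : ∀ σ : List Bool, σ ∈ al n ↔ σ.length = n := by
  induction n with
  | zero =>
    intro σ
    rw [List.length_eq_zero_iff]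
    exact List.mem_singleton
  | succ n ih =>
    intro σ
    change σ ∈ (al n).flatMap _ ↔ _
    rw [List.mem_flatMap]
    constructor
    · rintro ⟨τ, hτ, h⟩
      rw [ih] at hτ
      simp only [List.mem_cons, List.not_mem_nil, or_false] at h
      rcases h with h | h <;> rw [h] <;> simp [hτ]
    · intro h
      have hne : σ ≠ [] := by
        rintro rfl
        simp at h
      refine ⟨σ.dropLast, ?_, ?_⟩
      · rw [ih, List.length_dropLast, h]
        rfl
      · have h1 := List.dropLast_append_getLast hne
        simp only [List.mem_cons, List.not_mem_nil, or_false]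
        cases hh : σ.getLast hne
        · left
          rw [hh] at h1
          exact h1.symm
        · right
          rw [hh] at h1
          exact h1.symm

private theorem comp_al : Computable al := by
  refine Computable.nat_rec (f := fun n : ℕ => n) (g := fun _ => ([[]] : List (List Bool)))
    (h := fun _ (x : ℕ × List (List Bool)) => x.2.flatMap fun s => [s ++ [false], s ++ [true]])
    Computable.id (Computable.const _) ?_
  change Computable fun z : ℕ × (ℕ × List (List Bool)) =>
    z.2.2.flatMap fun s => [s ++ [false], s ++ [true]]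
  refine comp_flatMap (Computable.snd.comp Computable.snd) ?_
  change Computable fun z : (ℕ × (ℕ × List (List Bool))) × List Bool =>
    [z.2 ++ [false], z.2 ++ [true]]
  exact Computable.list_cons.comp (Computable.list_append.comp Computable.snd
    (Computable.const _)) (Computable.list_cons.comp (Computable.list_append.comp Computable.snd
    (Computable.const _)) (Computable.const _))

private def cutB (S : ℕ → ℕ → Option Bool) (a : List ℕ × List Bool) : Bool :=
  inT S a.2 && (List.range a.2.length).all fun x => (List.range a.2.length).all fun x' =>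
    !(((decide (a.1.getD x 0 = 1) && decide (a.1.getD x' 0 = 1)) &&
      (RR S x x' && a.2.getD x' false)) && !(a.2.getD x false))

private theorem comp_getDN {α : Type} [Primcodable α] {l : α → List ℕ} {n : α → ℕ}
    (hl : Computable l) (hn : Computable n) : Computable fun a => decide ((l a).getD (n a) 0 = 1) :=
  Primrec.eq.decide.to_comp.comp ((Primrec.list_getD 0).to_comp.comp hl hn) (Computable.const 1)

private theorem comp_getDB {α : Type} [Primcodable α] {l : α → List Bool} {n : α → ℕ}
    (hl : Computable l) (hn : Computable n) : Computable fun a => (l a).getD (n a) false :=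
  (Primrec.list_getD false).to_comp.comp hl hn

private theorem comp_cutB {S : ℕ → ℕ → Option Bool} (hS : Computable₂ S) :
    Computable (cutB S) := by
  refine comp_and ((comp_inT hS).comp Computable.snd) ?_
  refine comp_all (comp_range.comp (Computable.list_length.comp Computable.snd)) ?_
  change Computable fun z : (List ℕ × List Bool) × ℕ => (List.range z.1.2.length).all fun x' =>
    !(((decide (z.1.1.getD z.2 0 = 1) && decide (z.1.1.getD x' 0 = 1)) &&
      (RR S z.2 x' && z.1.2.getD x' false)) && !(z.1.2.getD z.2 false))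
  refine comp_all (comp_range.comp (Computable.list_length.comp
    (Computable.snd.comp Computable.fst))) ?_
  change Computable fun z : ((List ℕ × List Bool) × ℕ) × ℕ =>
    !(((decide (z.1.1.1.getD z.1.2 0 = 1) && decide (z.1.1.1.getD z.2 0 = 1)) &&
      (RR S z.1.2 z.2 && z.1.1.2.getD z.2 false)) && !(z.1.1.2.getD z.1.2 false))
  have h1 : Computable fun z : ((List ℕ × List Bool) × ℕ) × ℕ => z.1.1.1 :=
    Computable.fst.comp (Computable.fst.comp Computable.fst)
  have h2 : Computable fun z : ((List ℕ × List Bool) × ℕ) × ℕ => z.1.1.2 :=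
    Computable.snd.comp (Computable.fst.comp Computable.fst)
  have h3 : Computable fun z : ((List ℕ × List Bool) × ℕ) × ℕ => z.1.2 :=
    Computable.snd.comp Computable.fst
  have h4 : Computable fun z : ((List ℕ × List Bool) × ℕ) × ℕ => z.2 := Computable.snd
  exact comp_not (comp_and (comp_and (comp_and (comp_getDN h1 h3) (comp_getDN h1 h4))
    (comp_and ((comp_RR hS).comp h3 h4) (comp_getDB h2 h4))) (comp_not (comp_getDB h2 h3)))

private theorem getD_ini (U : ℕ → Bool) (k j : ℕ) :
    (ini (fun n => (U n).toNat) k).getD j 0 = 1 ↔ j < k ∧ U j = true := by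
  rw [List.getD_eq_getElem?_getD, getElem?_ini]
  split_ifs with h
  · simp only [Option.getD_some, h, true_and]
    cases U j <;> simp
  · simp [h]

private theorem cutB_iff (S : ℕ → ℕ → Option Bool) (U : ℕ → Bool) {k : ℕ} {σ : List Bool}
    (hσ : σ.length = k) : cutB S (ini (fun n => (U n).toNat) k, σ) = true ↔ Cut S U k σ := by
  simp only [cutB, Bool.and_eq_true, List.all_eq_true, List.mem_range, hσ, Cut, true_and,
    Bool.not_eq_true', Bool.and_eq_false_iff, decide_eq_false_iff_not, getD_ini,
    Bool.not_eq_false']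
  refine and_congr Iff.rfl ⟨fun h x x' hx hx' hU hU' hR hs => ?_, fun h x hx x' hx' => ?_⟩
  · rcases h x hx x' hx' with ((h1 | h1) | (h1 | h1)) | h1
    · exact absurd ⟨hx, hU⟩ h1
    · exact absurd ⟨hx', hU'⟩ h1
    · rw [hR] at h1
      exact absurd h1 (by simp)
    · rw [hs] at h1
      exact absurd h1 (by simp)
    · exact h1
  · by_cases h1 : x < k ∧ U x = true
    · by_cases h2 : x' < k ∧ U x' = true
      · cases h3 : RR S x x'
        · exact Or.inl (Or.inr (Or.inl rfl))
        · cases h4 : σ.getD x' false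
          · exact Or.inl (Or.inr (Or.inr rfl))
          · exact Or.inr (h x x' hx hx' h1.2 h2.2 h3 h4)
      · exact Or.inl (Or.inl (Or.inr h2))
    · exact Or.inl (Or.inl (Or.inl h1))

private def PA (S : ℕ → ℕ → Option Bool) (ζ : List ℕ) (m j : ℕ) : Bool :=
  (decide (m < j) && decide (j < ζ.length)) && (decide (ζ.getD j 0 = 1) &&
    (al ζ.length).all fun σ => !(cutB S (ζ, σ) && !(σ.getD j false)))

private theorem comp_lt {α : Type} [Primcodable α] {f g : α → ℕ}
    (hf : Computable f) (hg : Computable g) : Computable fun a => decide (f a < g a) :=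
  Primrec.nat_lt.decide.to_comp.comp hf hg

private theorem comp_PA {S : ℕ → ℕ → Option Bool} (hS : Computable₂ S) :
    Computable fun x : List ℕ × ℕ × ℕ => PA S x.1 x.2.1 x.2.2 := by
  have h1 : Computable fun x : List ℕ × ℕ × ℕ => x.1 := Computable.fst
  have h2 : Computable fun x : List ℕ × ℕ × ℕ => x.2.1 := Computable.fst.comp Computable.snd
  have h3 : Computable fun x : List ℕ × ℕ × ℕ => x.2.2 := Computable.snd.comp Computable.snd
  refine comp_and (comp_and (comp_lt h2 h3) (comp_lt h3 (Computable.list_length.comp h1)))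
    (comp_and (comp_getDN h1 h3) ?_)
  refine comp_all (comp_al.comp (Computable.list_length.comp h1)) ?_
  change Computable fun z : (List ℕ × ℕ × ℕ) × List Bool =>
    !(cutB S (z.1.1, z.2) && !(z.2.getD z.1.2.2 false))
  exact comp_not (comp_and ((comp_cutB hS).comp (Computable.pair (h1.comp Computable.fst)
    Computable.snd)) (comp_not (comp_getDB Computable.snd (h3.comp Computable.fst))))

private theorem PA_iff (S : ℕ → ℕ → Option Bool) (U : ℕ → Bool) (k m j : ℕ) :
    PA S (ini (fun n => (U n).toNat) k) m j = true ↔ m < j ∧ L S U k j := by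
  simp only [PA, Bool.and_eq_true, List.all_eq_true, decide_eq_true_eq, getD_ini, length_ini,
    mem_al, Bool.not_eq_true', Bool.and_eq_false_iff, Bool.not_eq_false', L]
  constructor
  · rintro ⟨⟨h1, h2⟩, ⟨-, h3⟩, h4⟩
    refine ⟨h1, h3, h2, fun σ hσ => ?_⟩
    rcases h4 σ hσ.1 with h5 | h5
    · rw [(cutB_iff S U hσ.1).2 hσ] at h5
      exact absurd h5 (by simp)
    · exact h5
  · rintro ⟨h1, h3, h2, h4⟩
    refine ⟨⟨h1, h2⟩, ⟨h2, h3⟩, fun σ hσ => ?_⟩
    cases h5 : cutB S (ini (fun n => (U n).toNat) k, σ)
    · exact Or.inl rfl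
    · exact Or.inr (h4 σ ((cutB_iff S U hσ).1 h5))

private def PB (B : ℕ) (ζ : List ℕ) (m j : ℕ) : Bool :=
  (decide (m < j) && decide (B < j)) && (decide (j < ζ.length) && decide (ζ.getD j 0 = 1))

private theorem comp_PB (B : ℕ) :
    Computable fun x : List ℕ × ℕ × ℕ => PB B x.1 x.2.1 x.2.2 := by
  have h1 : Computable fun x : List ℕ × ℕ × ℕ => x.1 := Computable.fst
  have h2 : Computable fun x : List ℕ × ℕ × ℕ => x.2.1 := Computable.fst.comp Computable.snd
  have h3 : Computable fun x : List ℕ × ℕ × ℕ => x.2.2 := Computable.snd.comp Computable.snd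
  exact comp_and (comp_and (comp_lt h2 h3) (comp_lt (Computable.const B) h3))
    (comp_and (comp_lt h3 (Computable.list_length.comp h1)) (comp_getDN h1 h3))

private theorem PB_iff (B : ℕ) (U : ℕ → Bool) (k m j : ℕ) :
    PB B (ini (fun n => (U n).toNat) k) m j = true ↔ m < j ∧ B < j ∧ j < k ∧ U j = true := by
  simp only [PB, Bool.and_eq_true, decide_eq_true_eq, getD_ini, length_ini]
  tauto

end EMp

theorem em_p {S : ℕ → ℕ → Option Bool} {v : ℕ → ℕ} (hS : Con S v) {U : ℕ → Bool}
    (hinf : {n | U n = true}.Infinite)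
    (htr : ∀ x y z, U x = true → U y = true → U z = true →
      RR S x y = true → RR S y z = true → RR S x z = true) :
    ∃ p : ℕ → ℕ, RecIn (fun n => (U n).toNat) p ∧ (∀ n, n < p n) ∧
      ∃ col : Bool, ∀ N, ∃ σ : List Bool, inT S σ = true ∧ σ.length = N ∧
        ∀ n, p n < N → σ.getD (p n) false = col := by
  by_cases hfin : {j | ∃ k, EMp.L S U k j}.Infinite
  · obtain ⟨h, hh, hs⟩ := search (g := fun n => (U n).toNat) (P := EMp.PA S)
      (EMp.comp_PA hS.comp) (by
        intro m
        obtain ⟨j, ⟨k, hk⟩, hj⟩ := hfin.exists_gt m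
        exact ⟨k, j, (EMp.PA_iff S U k m j).2 ⟨hj, hk⟩⟩)
    refine ⟨h, hh, fun n => ?_, true, fun N => ?_⟩
    · obtain ⟨k, hk⟩ := hs n
      exact ((EMp.PA_iff S U k n _).1 hk).1
    · obtain ⟨σ, h1, h2, h3⟩ := EMp.key hS hinf htr N
      refine ⟨σ, h1, h2, fun n hn => ?_⟩
      obtain ⟨k, hk⟩ := hs n
      have hL := ((EMp.PA_iff S U k n _).1 hk).2
      exact (h3 _ hL.1 hn).2 ⟨k, hL⟩
  · rw [Set.not_infinite] at hfin
    obtain ⟨B, hB⟩ := hfin.bddAbove
    obtain ⟨h, hh, hs⟩ := search (g := fun n => (U n).toNat) (P := EMp.PB B)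
      (EMp.comp_PB B) (by
        intro m
        obtain ⟨j, hj1, hj⟩ := hinf.exists_gt (max m B)
        exact ⟨j + 1, j, (EMp.PB_iff B U (j + 1) m j).2
          ⟨lt_of_le_of_lt (le_max_left _ _) hj, lt_of_le_of_lt (le_max_right _ _) hj,
            Nat.lt_succ_self j, hj1⟩⟩)
    refine ⟨h, hh, fun n => ?_, false, fun N => ?_⟩
    · obtain ⟨k, hk⟩ := hs n
      exact ((EMp.PB_iff B U k n _).1 hk).1
    · obtain ⟨σ, h1, h2, h3⟩ := EMp.key hS hinf htr N
      refine ⟨σ, h1, h2, fun n hn => ?_⟩
      obtain ⟨k, hk⟩ := hs n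
      obtain ⟨-, hB', -, hU⟩ := (EMp.PB_iff B U k n _).1 hk
      cases hc : σ.getD (h n) false
      · rfl
      · have := hB ((h3 _ hU hn).1 hc)
        exact absurd this (by omega)

end Pool.Agent.Helper61.RW
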