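import Pool.Agent.Helper61.RW.Defs

/-!
RW module EvA: the list of events.

PROOFS.
* exEv_iff: unfold, cases on `Ev t`.
* comp_Ev: Computable.option_bind (decode is computable) then Computable.cond; the test
  `(Code.evaln s (ofNat Code e) (encode τ)).isSome` is primitive recursive:
  Primrec.option_isSome.comp (Code.primrec_evaln.comp (pair (pair s (Primrec.ofNat Code .comp e)) (encode τ)))
  (compare RE.of_eval in Pool/Agent/Helper64/SB/Re.lean); `τ ++ τ'` by Primrec.list_append.
* comp_exEv: Computable.option_getD (Computable.option_map (comp_Ev.comp ht) ..) (const false).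
* W_up: `Ev t = some (e, ρ)` means that decode t = some ((e, s), τ, τ'), evaln is some, ρ = τ ++ τ'.
  If ρ' = ρ ++ δ use t' = encode (((e, s), τ, τ' ++ δ) : (ℕ × ℕ) × List Bool × List Bool).
* W_of_RE: V ρ ↔ ∃ n, q ρ n = true with q computable. The partial function
  x ↦ Nat.rfind (fun n => q ((decode x).getD []) n) is partial recursive, let c be a code
  (Code.exists_code), e = encode c. W e ρ ↔ there are a prefix τ of ρ and s with
  (evaln s c (encode τ)).isSome ↔ some prefix τ of ρ has (c.eval (encode τ)).Dom ↔ some prefix has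
  V τ ↔ V ρ (upward closed; for ← take τ = ρ, τ' = []). Use Code.evaln_complete, evaln_sound,
  Denumerable.ofNat_encode.
-/

set_option autoImplicit false

namespace Pool.Agent.Helper61.RW

open Nat.Partrec (Code)
open Encodable
open Pool.Agent.Helper64.SB
open Pool.Agent.Helper30.SatB

private theorem Ev_some {t e : ℕ} {ρ : List Bool} : Ev t = some (e, ρ) ↔
    ∃ (s : ℕ) (τ τ' : List Bool), decode (α := (ℕ × ℕ) × List Bool × List Bool) t =
      some ((e, s), τ, τ') ∧
      (Code.evaln s (Denumerable.ofNat Code e) (encode τ)).isSome = true ∧ ρ = τ ++ τ' := by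
  unfold Ev
  rw [Option.bind_eq_some_iff]
  constructor
  · rintro ⟨⟨⟨e', s⟩, τ, τ'⟩, h1, h2⟩
    cases hb : (Code.evaln s (Denumerable.ofNat Code e') (encode τ)).isSome with
    | false => simp only [hb, cond_false] at h2; exact absurd h2 (by simp)
    | true =>
      simp only [hb, cond_true, Option.some.injEq, Prod.mk.injEq] at h2
      obtain ⟨rfl, rfl⟩ := h2
      exact ⟨s, τ, τ', h1, hb, rfl⟩
  · rintro ⟨s, τ, τ', h1, h2, rfl⟩
    exact ⟨((e, s), τ, τ'), h1, by simp only [h2, cond_true]⟩

theorem exEv_iff {t : ℕ} {q : ℕ × List Bool → Bool} :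
    exEv t q = true ↔ ∃ e ρ, Ev t = some (e, ρ) ∧ q (e, ρ) = true := by
  unfold exEv
  cases h : Ev t with
  | none => simp
  | some x =>
    obtain ⟨e, ρ⟩ := x
    simp only [Option.map_some, Option.getD_some, Option.some.injEq]
    constructor
    · intro hq
      exact ⟨e, ρ, rfl, hq⟩
    · rintro ⟨e', ρ', h1, h2⟩
      rw [h1]
      exact h2

theorem comp_Ev : Computable Ev := by
  unfold Ev
  refine Computable.option_bind Computable.decode ?_
  have h1 : Primrec fun x : ℕ × ((ℕ × ℕ) × List Bool × List Bool) =>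
      (Code.evaln x.2.1.2 (Denumerable.ofNat Code x.2.1.1) (encode x.2.2.1)).isSome := by
    have ha : Primrec fun x : ℕ × ((ℕ × ℕ) × List Bool × List Bool) => x.2.1.2 :=
      Primrec.snd.comp (Primrec.fst.comp Primrec.snd)
    have hb : Primrec fun x : ℕ × ((ℕ × ℕ) × List Bool × List Bool) =>
        Denumerable.ofNat Code x.2.1.1 :=
      (Primrec.ofNat Code).comp (Primrec.fst.comp (Primrec.fst.comp Primrec.snd))
    have hc : Primrec fun x : ℕ × ((ℕ × ℕ) × List Bool × List Bool) => encode x.2.2.1 :=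
      Primrec.encode.comp (Primrec.fst.comp (Primrec.snd.comp Primrec.snd))
    exact Primrec.option_isSome.comp (Code.primrec_evaln.comp ((ha.pair hb).pair hc))
  have h2 : Primrec fun x : ℕ × ((ℕ × ℕ) × List Bool × List Bool) =>
      (some (x.2.1.1, x.2.2.1 ++ x.2.2.2) : Option (ℕ × List Bool)) := by
    refine Primrec.option_some.comp (Primrec.pair ?_ (Primrec.list_append.comp ?_ ?_))
    · exact Primrec.fst.comp (Primrec.fst.comp Primrec.snd)
    · exact Primrec.fst.comp (Primrec.snd.comp Primrec.snd)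
    · exact Primrec.snd.comp (Primrec.snd.comp Primrec.snd)
  exact (Computable.cond h1.to_comp h2.to_comp (Computable.const none)).to₂

theorem comp_exEv {α : Type} [Primcodable α] {t : α → ℕ} {q : α → ℕ × List Bool → Bool}
    (ht : Computable t) (hq : Computable₂ q) : Computable fun a => exEv (t a) (q a) := by
  unfold exEv
  exact Computable.option_getD (Computable.option_map (comp_Ev.comp ht) hq)
    (Computable.const false)

theorem W_up {e : ℕ} {ρ ρ' : List Bool} (h : W e ρ) (hp : ρ <+: ρ') : W e ρ' := by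
  obtain ⟨t, ht⟩ := h
  obtain ⟨δ, rfl⟩ := hp
  rw [Ev_some] at ht
  obtain ⟨s, τ, τ', -, h2, rfl⟩ := ht
  refine ⟨encode (((e, s), τ, τ' ++ δ) : (ℕ × ℕ) × List Bool × List Bool), ?_⟩
  rw [Ev_some]
  exact ⟨s, τ, τ' ++ δ, encodek _, h2, by rw [List.append_assoc]⟩

theorem W_of_RE {V : List Bool → Prop} (hV : RE V) (hup : ∀ ρ ρ', ρ <+: ρ' → V ρ → V ρ') :
    ∃ e, ∀ ρ, W e ρ ↔ V ρ := by
  obtain ⟨q, hq, hVq⟩ := hV
  have hp : Partrec fun x : ℕ => Nat.rfind fun n =>
      (Part.some (q ((decode (α := List Bool) x).getD []) n) : Part Bool) := by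
    refine Partrec.rfind (p := fun (x : ℕ) (n : ℕ) =>
      (Part.some (q ((decode (α := List Bool) x).getD []) n) : Part Bool)) ?_
    have h1 : Computable fun z : ℕ × ℕ => q ((decode (α := List Bool) z.1).getD []) z.2 := by
      refine hq.comp ?_ Computable.snd
      exact Computable.option_getD (Computable.decode.comp Computable.fst)
        (Computable.const ([] : List Bool))
    exact h1.partrec.to₂
  obtain ⟨c, hc⟩ := Nat.Partrec.Code.exists_code.1 (Partrec.nat_iff.1 hp)
  have hdom : ∀ ρ : List Bool, (∃ y, y ∈ Code.eval c (encode ρ)) ↔ V ρ := by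
    intro ρ
    rw [hc, hVq]
    simp only [encodek, Option.getD_some]
    constructor
    · rintro ⟨y, hy⟩
      rw [Nat.mem_rfind] at hy
      exact ⟨y, by simpa using hy.1⟩
    · intro h
      classical
      refine ⟨Nat.find h, ?_⟩
      rw [Nat.mem_rfind]
      refine ⟨by simpa using Nat.find_spec h, fun {m} hm => ?_⟩
      have := Nat.find_min h hm
      simpa using this
  refine ⟨encode c, fun ρ => ?_⟩
  constructor
  · rintro ⟨t, ht⟩
    rw [Ev_some] at ht
    obtain ⟨s, τ, τ', -, h2, rfl⟩ := ht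
    rw [Denumerable.ofNat_encode] at h2
    obtain ⟨y, hy⟩ := Option.isSome_iff_exists.1 h2
    have h3 : y ∈ Code.eval c (encode τ) := Code.evaln_complete.2 ⟨s, hy⟩
    exact hup τ _ (List.prefix_append _ _) ((hdom τ).1 ⟨y, h3⟩)
  · intro h
    obtain ⟨y, hy⟩ := (hdom ρ).2 h
    obtain ⟨k, hk⟩ := Code.evaln_complete.1 hy
    refine ⟨encode (((encode c, k), ρ, []) : (ℕ × ℕ) × List Bool × List Bool), ?_⟩
    rw [Ev_some]
    refine ⟨k, ρ, [], encodek _, ?_, by simp⟩
    rw [Denumerable.ofNat_encode]
    exact Option.isSome_iff_exists.2 ⟨y, hk⟩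

end Pool.Agent.Helper61.RW
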