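import Pool.Agent.Helper61.RW.EvA

/-!
RW module FGA: consequences of flip-genericity (definition FG in Defs.lean).

PROOFS.
* not_computable: let f m = Z (2m) be computable, V τ := ∃ m, τ[2 * m]? = some (!f m). V is RE
  (RE.ex, RE.eq, list_getElem?) and upward closed; take e from W_of_RE, apply h e. First case:
  V (pre Z n): (pre Z n)[2m]? = some (Z (2m)) if 2m < n, contradiction. Second case with p = 0: b even,
  n = b + 1: (pre (flp Z b) n)[b]? = some (!Z b) = some (!f (b/2)), so V holds, contradiction.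
* not_recIn: let g m = (Z (2m)).toNat, f m = (Z (2m+1)).toNat, c from SB.normal_form:
  v ∈ Part.some (f m) ↔ ∃ k, Conv c (ini g k) m v. For a string τ let
  ev τ : List ℕ := (List.range ((τ.length + 1) / 2)).map (fun i => (τ.getD (2 * i) false).toNat)
  (the even bits; τ <+: τ' → ev τ <+: ev τ').
  V τ := ∃ m v u, Conv c (ev τ) m v ∧ τ[2 * m + 1]? = some u ∧ v ≠ u.toNat. V is RE
  (RE.of_conv composed with computable maps, RE.ex, RE.and, RE.eq, RE.ne) and upward closed
  (Conv.mono). h e, first case V (pre Z n): ev (pre Z n) = ini g ((n+1)/2), so v = f m by the normal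
  form, while u = Z (2m+1): contradiction. Second case, p = 1: b = 2m+1; let k with
  Conv c (ini g k) m (f m), n = max (b+1) (2k): ev (pre (flp Z b) n) = ev (pre Z n) = ini g ((n+1)/2)
  (the flipped position is odd), which extends ini g k, so Conv c (ev ..) m (f m); and
  (pre (flp Z b) n)[2m+1]? = some (!Z b), so V holds, contradiction.
-/

set_option autoImplicit false

namespace Pool.Agent.Helper61.RW

open Nat.Partrec (Code)
open Encodable
open Pool.Agent.Helper64.SB
open Pool.Agent.Helper30.SatB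

private theorem getElem?_pre (Z : ℕ → Bool) (n m : ℕ) :
    (pre Z n)[m]? = if m < n then some (Z m) else none := by
  unfold pre
  split_ifs with h
  · simp [h]
  · simp [h]

private theorem getD_pre (Z : ℕ → Bool) {n m : ℕ} (h : m < n) : (pre Z n).getD m false = Z m := by
  rw [List.getD_eq_getElem?_getD, getElem?_pre, if_pos h]
  rfl

private theorem length_pre (Z : ℕ → Bool) (n : ℕ) : (pre Z n).length = n := by simp [pre]

private theorem pref_get {τ τ' : List Bool} (h : τ <+: τ') {n : ℕ} {u : Bool}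
    (hu : τ[n]? = some u) : τ'[n]? = some u := by
  obtain ⟨ρ, rfl⟩ := h
  rw [List.getElem?_append_left]
  · exact hu
  · by_contra hn
    rw [List.getElem?_eq_none (by omega)] at hu
    cases hu

private theorem comp_dbl : Computable fun m : ℕ => 2 * m :=
  (Primrec.nat_mul.comp (Primrec.const 2) Primrec.id).to_comp

private theorem comp_dbl1 : Computable fun m : ℕ => 2 * m + 1 :=
  (Primrec.succ.comp (Primrec.nat_mul.comp (Primrec.const 2) Primrec.id)).to_comp

private theorem comp_toNat : Computable Bool.toNat := (Primrec.dom_finite _).to_comp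

theorem fg_not_computable {Z : ℕ → Bool} (h : FG Z) : ¬ Computable fun n => Z (2 * n) := by
  intro hc
  have hV : RE (fun τ : List Bool => ∃ m : ℕ, τ[2 * m]? = some (!Z (2 * m))) := by
    refine RE.ex (p := fun (τ : List Bool) (m : ℕ) => τ[2 * m]? = some (!Z (2 * m))) ?_
    refine RE.eq (f := fun x : List Bool × ℕ => x.1[2 * x.2]?)
      (g := fun x : List Bool × ℕ => some (!Z (2 * x.2))) ?_ ?_
    · exact Computable.list_getElem?.comp Computable.fst (comp_dbl.comp Computable.snd)
    · exact Computable.option_some.comp (comp_not (hc.comp Computable.snd))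
  obtain ⟨e, he⟩ := W_of_RE hV (fun ρ ρ' hp ⟨m, hm⟩ => ⟨m, pref_get hp hm⟩)
  rcases h e with ⟨n, hn⟩ | hb
  · obtain ⟨m, hm⟩ := (he _).1 hn
    rw [getElem?_pre] at hm
    split_ifs at hm
    have h1 := Option.some.inj hm
    cases hz : Z (2 * m) <;> rw [hz] at h1 <;> cases h1
  · obtain ⟨b, hb0, hbn⟩ := hb 0 (by norm_num)
    refine hbn (b + 1) (by omega) ((he _).2 ⟨b / 2, ?_⟩)
    have h2 : 2 * (b / 2) = b := by omega
    rw [h2, getElem?_pre, if_pos (by omega), flp, if_pos rfl]

private def ev (τ : List Bool) : List ℕ :=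
  (List.range ((τ.length + 1) / 2)).map fun i => (τ.getD (2 * i) false).toNat

private theorem ev_eq {τ : List Bool} {G : ℕ → ℕ}
    (h : ∀ i, 2 * i < τ.length → (τ.getD (2 * i) false).toNat = G i) :
    ev τ = ini G ((τ.length + 1) / 2) := by
  unfold ev ini
  refine List.map_congr_left fun i hi => h i ?_
  have := List.mem_range.1 hi
  omega

private theorem ev_mono {τ τ' : List Bool} (h : τ <+: τ') : ev τ <+: ev τ' := by
  have h1 : ev τ = ini (fun i => (τ'.getD (2 * i) false).toNat) ((τ.length + 1) / 2) := by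
    refine ev_eq fun i hi => ?_
    obtain ⟨ρ, rfl⟩ := h
    rw [List.getD_eq_getElem?_getD, List.getD_eq_getElem?_getD, List.getElem?_append_left hi]
  have h2 : ev τ' = ini (fun i => (τ'.getD (2 * i) false).toNat) ((τ'.length + 1) / 2) := rfl
  rw [h1, h2]
  have h3 := h.length_le
  exact ini_prefix _ (by omega)

private theorem comp_ev : Computable ev := by
  refine comp_map (l := fun τ : List Bool => List.range ((τ.length + 1) / 2))
    (g := fun (τ : List Bool) (i : ℕ) => (τ.getD (2 * i) false).toNat) ?_ ?_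
  · refine comp_range.comp ?_
    have h1 : Computable fun n : ℕ => (n + 1) / 2 :=
      (Primrec.nat_div.comp Primrec.succ (Primrec.const 2)).to_comp
    exact h1.comp Computable.list_length
  · exact comp_toNat.comp ((Primrec.list_getD false).to_comp.comp Computable.fst
      (comp_dbl.comp Computable.snd))

theorem fg_not_recIn {Z : ℕ → Bool} (h : FG Z) :
    ¬ RecIn (fun n => (Z (2 * n)).toNat) (fun n => (Z (2 * n + 1)).toNat) := by
  intro hR
  obtain ⟨c, hc⟩ := normal_form hR
  have hc' : ∀ n v : ℕ, v = (Z (2 * n + 1)).toNat ↔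
      ∃ k, Conv c (ini (fun n => (Z (2 * n)).toNat) k) n v := by
    intro n v
    rw [← hc n v]
    exact Part.mem_some_iff.symm
  have hV : RE (fun τ : List Bool => ∃ m : ℕ, ∃ v : ℕ, ∃ u : Bool,
      Conv c (ev τ) m v ∧ τ[2 * m + 1]? = some u ∧ v ≠ u.toNat) := by
    refine RE.ex (p := fun (τ : List Bool) (m : ℕ) => ∃ v : ℕ, ∃ u : Bool,
      Conv c (ev τ) m v ∧ τ[2 * m + 1]? = some u ∧ v ≠ u.toNat) ?_
    refine RE.ex (α := List Bool × ℕ) (p := fun x (v : ℕ) => ∃ u : Bool,
      Conv c (ev x.1) x.2 v ∧ x.1[2 * x.2 + 1]? = some u ∧ v ≠ u.toNat) ?_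
    refine RE.ex (α := (List Bool × ℕ) × ℕ) (p := fun x (u : Bool) =>
      Conv c (ev x.1.1) x.1.2 x.2 ∧ x.1.1[2 * x.1.2 + 1]? = some u ∧ x.2 ≠ u.toNat) ?_
    refine RE.and ?_ (RE.and ?_ ?_)
    · refine (RE.of_conv c).comp (f := fun x : ((List Bool × ℕ) × ℕ) × Bool =>
        (ev x.1.1.1, x.1.1.2, x.1.2)) ?_
      exact Computable.pair (comp_ev.comp
        (Computable.fst.comp (Computable.fst.comp Computable.fst)))
        (Computable.pair (Computable.snd.comp (Computable.fst.comp Computable.fst))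
          (Computable.snd.comp Computable.fst))
    · refine RE.eq (f := fun x : ((List Bool × ℕ) × ℕ) × Bool => x.1.1.1[2 * x.1.1.2 + 1]?)
        (g := fun x : ((List Bool × ℕ) × ℕ) × Bool => some x.2) ?_ ?_
      · exact Computable.list_getElem?.comp
          (Computable.fst.comp (Computable.fst.comp Computable.fst))
          (comp_dbl1.comp (Computable.snd.comp (Computable.fst.comp Computable.fst)))
      · exact Computable.option_some.comp Computable.snd
    · exact RE.ne (f := fun x : ((List Bool × ℕ) × ℕ) × Bool => x.1.2)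
        (g := fun x : ((List Bool × ℕ) × ℕ) × Bool => x.2.toNat)
        (Computable.snd.comp Computable.fst) (comp_toNat.comp Computable.snd)
  obtain ⟨e, he⟩ := W_of_RE hV (fun ρ ρ' hp ⟨m, v, u, h1, h2, h3⟩ =>
    ⟨m, v, u, h1.mono (ev_mono hp), pref_get hp h2, h3⟩)
  rcases h e with ⟨n, hn⟩ | hb
  · obtain ⟨m, v, u, h1, h2, h3⟩ := (he _).1 hn
    have h4 : ev (pre Z n) = ini (fun n => (Z (2 * n)).toNat) ((n + 1) / 2) := by
      have h5 := ev_eq (τ := pre Z n) (G := fun n => (Z (2 * n)).toNat) (fun i hi => by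
        rw [length_pre] at hi
        rw [getD_pre Z hi])
      rwa [length_pre] at h5
    rw [h4] at h1
    have h6 := (hc' m v).2 ⟨_, h1⟩
    rw [getElem?_pre] at h2
    split_ifs at h2
    have h7 := Option.some.inj h2
    exact h3 (by rw [h6, h7])
  · obtain ⟨b, hb1, hbn⟩ := hb 1 (by norm_num)
    obtain ⟨m, rfl⟩ : ∃ m, b = 2 * m + 1 := ⟨b / 2, by omega⟩
    obtain ⟨k, hk⟩ := (hc' m _).1 rfl
    obtain ⟨n, hn⟩ : ∃ n, n = max (2 * m + 1 + 1) (2 * k) := ⟨_, rfl⟩
    have hn1 : 2 * m + 1 + 1 ≤ n := by rw [hn]; exact le_max_left _ _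
    have hn2 : 2 * k ≤ n := by rw [hn]; exact le_max_right _ _
    refine hbn n (by omega) ((he _).2 ⟨m, (Z (2 * m + 1)).toNat, !Z (2 * m + 1), ?_, ?_, ?_⟩)
    · have h4 : ev (pre (flp Z (2 * m + 1)) n) =
          ini (fun n => (Z (2 * n)).toNat) ((n + 1) / 2) := by
        have h5 := ev_eq (τ := pre (flp Z (2 * m + 1)) n) (G := fun n => (Z (2 * n)).toNat)
          (fun i hi => by
            rw [length_pre] at hi
            rw [getD_pre _ hi, flp, if_neg (by omega)])
        rwa [length_pre] at h5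
      rw [h4]
      exact hk.mono (ini_prefix _ (by omega))
    · rw [getElem?_pre, if_pos (by omega), flp, if_pos rfl]
    · cases Z (2 * m + 1) <;> simp

end Pool.Agent.Helper61.RW
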