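import Pool.Agent.Helper61.RW.Constr
import Pool.Agent.Helper61.RW.CaseA
import Pool.Agent.Helper61.RW.CaseB
import Pool.Agent.Helper61.RW.FGA
import Pool.Agent.Helper61.RW.EMp

/-!
RW module FinA: the main lemma and its consequences.
-/

set_option autoImplicit false

namespace Pool.Agent.Helper61.RW

open Encodable
open Pool.Agent.Helper64.SB
open Pool.Agent.Helper30.SatB

theorem main_lemma {S : ℕ → ℕ → Option Bool} {v : ℕ → ℕ} (hS : Con S v) {p : ℕ → ℕ}
    (hp : ∀ n, n < p n) {col : Bool}
    (hcol : ∀ N, ∃ σ : List Bool, inT S σ = true ∧ σ.length = N ∧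
      ∀ n, p n < N → σ.getD (p n) false = col) :
    ∃ Z, FG Z ∧ RecIn p fun n => (Z n).toNat := by
  by_cases h : ∀ m, ∃ n ≥ m, ∀ t, newB n t = true → t < p n
  · exact case2 hp h
  · push Not at h
    obtain ⟨n0, h⟩ := h
    refine case1 hS hp hcol (n0 := n0) fun n hn => ?_
    obtain ⟨t, h1, h2⟩ := h n hn
    exact ⟨t, h2, h1⟩

/-- The next element of an infinite set. -/
theorem next_elt {U : ℕ → Bool} (hinf : {n | U n = true}.Infinite) :
    ∃ p : ℕ → ℕ, RecIn (fun n => (U n).toNat) p ∧ (∀ n, n < p n) ∧ ∀ n, U (p n) = true := by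
  obtain ⟨p, hp, hs⟩ := search (g := fun n => (U n).toNat)
    (P := fun ζ m w => decide (m < w) && decide (ζ[w]? = some 1)) (by
      refine comp_and ?_ ?_
      · exact (Primrec.nat_lt.decide.comp (Primrec.fst.comp Primrec.snd)
          (Primrec.snd.comp Primrec.snd)).to_comp
      · exact (Primrec.eq.decide.comp (Primrec.list_getElem?.comp Primrec.fst
          (Primrec.snd.comp Primrec.snd)) (Primrec.const _)).to_comp) (by
      intro m
      obtain ⟨w, hw, hmw⟩ := hinf.exists_gt m
      refine ⟨w + 1, w, ?_⟩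
      have hw' : U w = true := hw
      rw [Bool.and_eq_true, decide_eq_true_eq, decide_eq_true_eq, getElem?_ini]
      simp [hmw, hw'])
  refine ⟨p, hp, fun n => ?_, fun n => ?_⟩
  · obtain ⟨k, hk⟩ := hs n
    simp only [Bool.and_eq_true, decide_eq_true_eq] at hk
    exact hk.1
  · obtain ⟨k, hk⟩ := hs n
    simp only [Bool.and_eq_true, decide_eq_true_eq, getElem?_ini] at hk
    obtain ⟨_, h2⟩ := hk
    split_ifs at h2
    cases hU : U (p n)
    · rw [hU] at h2; simp at h2
    · rfl

theorem turing_iff {c h : ℕ → Bool} :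
    TuringReducible (fun n => Part.some (c n).toNat) (fun n => Part.some (h n).toNat) ↔
      RecIn (fun n => (h n).toNat) (fun n => (c n).toNat) := RecursiveIn.iff_nat

theorem not_minimal {Z h : ℕ → Bool} (hZ : FG Z)
    (hr : RecIn (fun n => (h n).toNat) fun n => (Z n).toNat)
    (hmin : ∀ c : ℕ → Bool,
      TuringReducible (fun n => Part.some (c n).toNat) (fun n => Part.some (h n).toNat) →
        (Computable c ∨
          TuringReducible (fun n => Part.some (h n).toNat) (fun n => Part.some (c n).toNat))) :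
    False := by
  have h0 : RecIn (fun n => (h n).toNat) fun n => (Z (2 * n)).toNat :=
    hr.comp (f := fun n => (Z n).toNat) (h := fun n => 2 * n)
      (RecIn.of_computable (Primrec.nat_mul.comp (Primrec.const 2) Primrec.id).to_comp)
  have h1 : RecIn (fun n => (h n).toNat) fun n => (Z (2 * n + 1)).toNat :=
    hr.comp (f := fun n => (Z n).toNat) (h := fun n => 2 * n + 1)
      (RecIn.of_computable (Primrec.succ.comp
        (Primrec.nat_mul.comp (Primrec.const 2) Primrec.id)).to_comp)
  rcases hmin (fun n => Z (2 * n)) (turing_iff.mpr h0) with h2 | h2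
  · exact fg_not_computable hZ h2
  · exact fg_not_recIn hZ (RecIn.trans (g := fun n => (Z (2 * n)).toNat) (turing_iff.mp h2) h1)

end Pool.Agent.Helper61.RW
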