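import Pool.Agent.Helper61.RW.Defs

/-!
RW module StA: combinatorics of one action. A state is `s = (V, C)`: V = open positions below
N = C.length, `vv s l = V.getD l (N + (l - V.length))` is the l-th open position (after the list V
the open positions are N, N+1, ...), `cc s b` is the value of a closed position.

PROOFS.
* cc_eq_some: unfold.
* cc_none_iff: cc s b = none ↔ b ∈ V or N ≤ b. b ∈ V: b = V[l] = vv s l. b ≥ N: b = vv s (V.length + (b - N)).
  Conversely vv s l = V[l] ∈ V if l < V.length, else ≥ N.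
* Inv s: vv s is strictly increasing and vv s l ≡ l mod 2. Then for l < V.length vv s l < vv s V.length = N.
  In all cases vv s l ≤ N + l, and vv s l < N + k if l < k (needed: N + k < nl).
* vv_act_lt, vv_act_add: direct from the definition (the list of Act has length k, its values have
  length nl s k ρ M).
* inv_act: the first k values are those of s, below nl (vv s l < N + k + 1 ≤ nl for l < k), then nl, nl+1, ..;
  nl ≡ k mod 2.
* vv_lt_act: l = k + j: vv s l ≤ N + l < nl + j. vv_le_act: l < k equality, else vv_lt_act.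
* cc_act_mono: b < N ≤ nl, b is not among vv s l, l < k (cc_none_iff), the value is (cc s b).getD .. = u.
* cc_act: direct.
-/

set_option autoImplicit false

namespace Pool.Agent.Helper61.RW

/-- The invariant. -/
def Inv (s : St) : Prop := StrictMono (vv s) ∧ ∀ l, vv s l % 2 = l % 2

theorem cc_eq_some {s : St} {b : ℕ} {u : Bool} :
    cc s b = some u ↔ b < s.2.length ∧ b ∉ s.1 ∧ s.2.getD b false = u := by
  unfold cc
  have h1 : (s.1.all fun i => !decide (i = b)) = true ↔ b ∉ s.1 := by
    rw [List.all_eq_true]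
    constructor
    · intro h hb
      have := h b hb
      simp at this
    · intro h x hx
      have : x ≠ b := fun hxb => h (hxb ▸ hx)
      simp [this]
  by_cases hc : b < s.2.length ∧ b ∉ s.1
  · have h2 : (decide (b < s.2.length) && s.1.all fun i => !decide (i = b)) = true := by
      rw [Bool.and_eq_true, decide_eq_true_iff, h1]
      exact hc
    rw [h2, cond_true, Option.some_inj]
    exact ⟨fun h => ⟨hc.1, hc.2, h⟩, fun h => h.2.2⟩
  · have h2 : (decide (b < s.2.length) && s.1.all fun i => !decide (i = b)) = false := by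
      rw [← Bool.not_eq_true, Bool.and_eq_true, decide_eq_true_iff, h1]
      exact hc
    rw [h2, cond_false]
    exact ⟨fun h => by simp at h, fun h => absurd ⟨h.1, h.2.1⟩ hc⟩

theorem cc_none {s : St} {b : ℕ} : cc s b = none ↔ b ∈ s.1 ∨ s.2.length ≤ b := by
  constructor
  · intro h
    by_contra hc
    rw [not_or, not_le] at hc
    have h2 := (cc_eq_some (s := s) (b := b) (u := s.2.getD b false)).2 ⟨hc.2, hc.1, rfl⟩
    rw [h] at h2
    simp at h2
  · intro h
    cases hc : cc s b with
    | none => rfl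
    | some u =>
      have h2 := cc_eq_some.1 hc
      rcases h with h | h
      · exact absurd h h2.2.1
      · omega

theorem vv_lt {s : St} {l : ℕ} (h : l < s.1.length) : vv s l = s.1[l] := by
  unfold vv
  rw [List.getD_eq_getElem _ _ h]

theorem vv_ge {s : St} {l : ℕ} (h : s.1.length ≤ l) :
    vv s l = s.2.length + (l - s.1.length) := by
  unfold vv
  rw [List.getD_eq_default _ _ h]

theorem cc_none_iff {s : St} {b : ℕ} : cc s b = none ↔ ∃ l, b = vv s l := by
  rw [cc_none]
  constructor
  · rintro (h | h)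
    · obtain ⟨l, hl, rfl⟩ := List.getElem_of_mem h
      exact ⟨l, (vv_lt hl).symm⟩
    · refine ⟨s.1.length + (b - s.2.length), ?_⟩
      rw [vv_ge (by omega)]
      omega
  · rintro ⟨l, rfl⟩
    rcases lt_or_ge l s.1.length with hl | hl
    · left
      rw [vv_lt hl]
      exact List.getElem_mem hl
    · right
      rw [vv_ge hl]
      omega

theorem vv_nil (l : ℕ) : vv (([], []) : St) l = l := by
  rw [vv_ge (by simp)]
  simp

theorem inv_zero : Inv (([], []) : St) := by
  refine ⟨fun a b h => ?_, fun l => ?_⟩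
  · rw [vv_nil, vv_nil]
    exact h
  · rw [vv_nil]

theorem le_nl {s : St} {k : ℕ} {ρ : List Bool} {M : ℕ} :
    s.2.length + k + 1 ≤ nl s k ρ M ∧ ρ.length ≤ nl s k ρ M ∧ M ≤ nl s k ρ M ∧
      nl s k ρ M % 2 = k % 2 := by
  unfold nl
  have h1 : s.2.length + k + 1 ≤ max (s.2.length + k + 1) (max ρ.length M) := le_max_left _ _
  have h2 : ρ.length ≤ max (s.2.length + k + 1) (max ρ.length M) :=
    (le_max_left _ _).trans (le_max_right _ _)
  have h3 : M ≤ max (s.2.length + k + 1) (max ρ.length M) :=
    (le_max_right _ _).trans (le_max_right _ _)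
  generalize max (s.2.length + k + 1) (max ρ.length M) = m at *
  refine ⟨?_, ?_, ?_, ?_⟩ <;> omega

theorem act_fst_len (s : St) (k : ℕ) (ρ : List Bool) (M : ℕ) : (Act s k ρ M).1.length = k := by
  unfold Act
  simp

theorem act_snd_len (s : St) (k : ℕ) (ρ : List Bool) (M : ℕ) :
    (Act s k ρ M).2.length = nl s k ρ M := by
  unfold Act
  simp

theorem vv_act_lt {s : St} {k : ℕ} {ρ : List Bool} {M l : ℕ} (h : l < k) :
    vv (Act s k ρ M) l = vv s l := by
  rw [vv_lt (by rw [act_fst_len]; exact h)]
  unfold Act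
  simp

theorem vv_act_add {s : St} {k : ℕ} {ρ : List Bool} {M : ℕ} (j : ℕ) :
    vv (Act s k ρ M) (k + j) = nl s k ρ M + j := by
  rw [vv_ge (by rw [act_fst_len]; omega), act_fst_len, act_snd_len]
  omega

/-- the open positions are not too large -/
theorem vv_le {s : St} (hs : Inv s) (l : ℕ) : vv s l ≤ s.2.length + l := by
  rcases lt_or_ge l s.1.length with hl | hl
  · have h1 := hs.1 hl
    have h2 := vv_ge (s := s) (l := s.1.length) le_rfl
    omega
  · rw [vv_ge hl]
    omega

theorem inv_act {s : St} {k : ℕ} {ρ : List Bool} {M : ℕ} (hs : Inv s) : Inv (Act s k ρ M) := by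
  have hn := le_nl (s := s) (k := k) (ρ := ρ) (M := M)
  refine ⟨strictMono_nat_of_lt_succ fun l => ?_, fun l => ?_⟩
  · rcases lt_or_ge l k with hl | hl
    · rw [vv_act_lt hl]
      rcases lt_or_ge (l + 1) k with hl' | hl'
      · rw [vv_act_lt hl']
        exact hs.1 (Nat.lt_succ_self l)
      · have h1 : l + 1 = k + 0 := by omega
        rw [h1, vv_act_add]
        have h2 := vv_le hs l
        omega
    · obtain ⟨j, rfl⟩ : ∃ j, l = k + j := ⟨l - k, by omega⟩
      rw [vv_act_add, show k + j + 1 = k + (j + 1) by ring, vv_act_add]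
      omega
  · rcases lt_or_ge l k with hl | hl
    · rw [vv_act_lt hl]
      exact hs.2 l
    · obtain ⟨j, rfl⟩ : ∃ j, l = k + j := ⟨l - k, by omega⟩
      rw [vv_act_add]
      omega

theorem vv_lt_act {s : St} {k : ℕ} {ρ : List Bool} {M : ℕ} (hs : Inv s) {l : ℕ} (h : k ≤ l) :
    vv s l < vv (Act s k ρ M) l := by
  have hn := le_nl (s := s) (k := k) (ρ := ρ) (M := M)
  obtain ⟨j, rfl⟩ : ∃ j, l = k + j := ⟨l - k, by omega⟩
  rw [vv_act_add]
  have h1 := vv_le hs (k + j)
  omega

theorem vv_le_act {s : St} {k : ℕ} {ρ : List Bool} {M : ℕ} (hs : Inv s) (l : ℕ) :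
    vv s l ≤ vv (Act s k ρ M) l := by
  rcases lt_or_ge l k with hl | hl
  · rw [vv_act_lt hl]
  · exact (vv_lt_act hs hl).le

theorem cc_act {s : St} {k : ℕ} {ρ : List Bool} {M : ℕ} (hs : Inv s) {b : ℕ}
    (hb : b < nl s k ρ M) (h : ∀ l < k, b ≠ vv s l) :
    cc (Act s k ρ M) b = some ((cc s b).getD (ρ.getD b false)) := by
  rw [cc_eq_some]
  refine ⟨by rw [act_snd_len]; exact hb, ?_, ?_⟩
  · unfold Act
    simp only [List.mem_map, List.mem_range, not_exists, not_and]
    exact fun l hl he => h l hl he.symm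
  · unfold Act
    simp only
    rw [List.getD_eq_getElem _ _ (by simp; exact hb)]
    simp

theorem cc_act_mono {s : St} {k : ℕ} {ρ : List Bool} {M : ℕ} (hs : Inv s) {b : ℕ} {u : Bool}
    (h : cc s b = some u) : cc (Act s k ρ M) b = some u := by
  have hn := le_nl (s := s) (k := k) (ρ := ρ) (M := M)
  have h1 := cc_eq_some.1 h
  have h2 : ∀ l < k, b ≠ vv s l := by
    intro l _ hl
    have h3 := cc_none_iff.2 ⟨l, hl⟩
    rw [h] at h3
    simp at h3
  rw [cc_act hs (by omega) h2, h]
  rfl

end Pool.Agent.Helper61.RW
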