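import Pool.Agent.Helper61.RW.NewA
import Pool.Agent.Helper61.RW.StA

/-!
RW module InjA: the stages of the construction; finite injury.

PROOFS. sts (t+1) = step t (sts t) by rfl (sts is Nat.rec).
* step_growth / step_req: unfold step, the Boolean tests are given (use Nat.unpair_pair if needed).
* step_cases: case distinction in step: gB true: GA; else Ev t.unpair.1 = none: the state is unchanged;
  = some (e, ρ): rB true: RA, else unchanged.
* inv_sts: induction, inv_zero, inv_act.
* vv_mono, cc_mono: induction on t' (Nat.le_induction), step_cases, vv_le_act, cc_act_mono.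
* injury: strong induction on k. Let s0 be such that no act of index < k happens at stages ≥ s0
  (for k = 0 s0 = 0; otherwise the statement for k - 1). From s0 on vv (sts t) l is constant for l < k
  (every act at a stage ≥ s0 has index j ≥ k, and l < k ≤ j: vv_act_lt).
  (a) GA t k at t ≥ s0: k = l + 1, newB (vv (sts t) l) t' with vv (sts t) l = vv (sts s0) l =: m, so
  t' < B (newB_bdd m), so vv (sts t) k < B; and at an act of index k vv . k increases strictly
  (vv_lt_act), it never decreases (vv_mono): if there were infinitely many stages ≥ s0 with an act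
  GA t k, then vv (sts t) k would be unbounded on them (e.g. by induction: for every n there is a
  stage ≥ s0 after which vv . k ≥ n): contradiction. So there is s1 ≥ s0 after which no GA t k.
  (b) RA t k at t ≥ s1: Ev t.unpair.1 = some (k, ρ_t). Suppose that there are infinitely many such t.
  Then two of them, t < t', have the same vector (ρ.getD (vv (sts s0) l) false) for l < k
  (pigeonhole: Set.Infinite.exists_lt_map_eq_of_mapsTo with the finite type Fin k → Bool).
  At stage t: rB gives vv (sts t) l < ρ_t.length for l < k and that cc (sts t) b ≠ some (!ρ_t[b]) for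
  b < ρ_t.length. After it, by cc_act and ρ_t.length ≤ nl (le_nl), for b < ρ_t.length, b ≠ vv l (l < k):
  cc (sts (t+1)) b = some (ρ_t.getD b false), and this stays (cc_mono) until t'. So at stage t'
  satB (sts t') k ρ_t' ρ_t = true, with x' = t.unpair.1 ≤ t < t' + 1 (Nat.unpair_left_le), contradicting
  rB (sts t') t' k ρ_t'. So RA t k happens only finitely often; take s ≥ s1 beyond all of them.
* stable: from s on all acts have index > k, so vv . l is unchanged for l ≤ k (induction on t, step_cases,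
  vv_act_lt).
-/

set_option autoImplicit false

namespace Pool.Agent.Helper61.RW

open Pool.Agent.Helper64.SB

/-- Growth act of index `k` at stage `t`. -/
def GA (t k : ℕ) : Prop := ∃ l t', t.unpair.1 = Nat.pair l t' ∧ k = l + 1 ∧
  gB (sts t) l t' = true ∧ sts (t + 1) = Act (sts t) (l + 1) [] t'

/-- Requirement act of index `k` at stage `t`. -/
def RA (t k : ℕ) : Prop := ∃ ρ, Ev t.unpair.1 = some (k, ρ) ∧ rB (sts t) t k ρ = true ∧
  sts (t + 1) = Act (sts t) k ρ 0

private theorem sts_succ (t : ℕ) : sts (t + 1) = step t (sts t) := rfl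

theorem step_growth {t l t' : ℕ} (h : t.unpair.1 = Nat.pair l t') (hg : gB (sts t) l t' = true) :
    GA t (l + 1) := by
  refine ⟨l, t', h, rfl, hg, ?_⟩
  rw [sts_succ]
  unfold step
  rw [h, Nat.unpair_pair]
  simp only
  rw [hg]
  rfl

theorem step_req {t k : ℕ} {ρ : List Bool} (h : Ev t.unpair.1 = some (k, ρ))
    (hg : gB (sts t) t.unpair.1.unpair.1 t.unpair.1.unpair.2 = false)
    (hr : rB (sts t) t k ρ = true) : RA t k := by
  refine ⟨ρ, h, hr, ?_⟩
  rw [sts_succ]
  unfold step
  rw [hg, h]
  simp only [Option.map_some, Option.getD_some, cond_false]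
  rw [hr]
  rfl

theorem step_cases (t : ℕ) : (∃ k, GA t k) ∨ (∃ k, RA t k) ∨ sts (t + 1) = sts t := by
  cases hg : gB (sts t) t.unpair.1.unpair.1 t.unpair.1.unpair.2
  · cases hE : Ev t.unpair.1 with
    | none =>
      refine Or.inr (Or.inr ?_)
      rw [sts_succ]
      unfold step
      rw [hg, hE]
      rfl
    | some y =>
      obtain ⟨e, ρ⟩ := y
      cases hr : rB (sts t) t e ρ
      · refine Or.inr (Or.inr ?_)
        rw [sts_succ]
        unfold step
        rw [hg, hE]
        simp only [Option.map_some, Option.getD_some, cond_false]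
        rw [hr]
        rfl
      · exact Or.inr (Or.inl ⟨e, step_req hE hg hr⟩)
  · exact Or.inl ⟨_, step_growth (Nat.pair_unpair _).symm hg⟩

theorem inv_sts (t : ℕ) : Inv (sts t) := by
  induction t with
  | zero => exact inv_zero
  | succ t ih =>
    rcases step_cases t with ⟨k, l, t', -, -, -, h⟩ | ⟨k, ρ, -, -, h⟩ | h
    · rw [h]
      exact inv_act ih
    · rw [h]
      exact inv_act ih
    · rw [h]
      exact ih

theorem vv_mono {t t' : ℕ} (h : t ≤ t') (l : ℕ) : vv (sts t) l ≤ vv (sts t') l := by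
  induction t', h using Nat.le_induction with
  | base => exact le_rfl
  | succ m _ ih =>
    refine ih.trans ?_
    rcases step_cases m with ⟨k, l', t', -, -, -, h⟩ | ⟨k, ρ, -, -, h⟩ | h
    · rw [h]
      exact vv_le_act (inv_sts m) l
    · rw [h]
      exact vv_le_act (inv_sts m) l
    · rw [h]

theorem cc_mono {t t' : ℕ} (h : t ≤ t') {b : ℕ} {u : Bool} (hc : cc (sts t) b = some u) :
    cc (sts t') b = some u := by
  induction t', h using Nat.le_induction with
  | base => exact hc
  | succ m _ ih =>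
    rcases step_cases m with ⟨k, l', t', -, -, -, h⟩ | ⟨k, ρ, -, -, h⟩ | h
    · rw [h]
      exact cc_act_mono (inv_sts m) ih
    · rw [h]
      exact cc_act_mono (inv_sts m) ih
    · rw [h]
      exact ih

private theorem stable_lt {k s : ℕ} (h : ∀ t ≥ s, ∀ j < k, ¬ GA t j ∧ ¬ RA t j) :
    ∀ t ≥ s, ∀ l < k, vv (sts t) l = vv (sts s) l := by
  intro t ht
  induction t, ht using Nat.le_induction with
  | base => exact fun l _ => rfl
  | succ m hm ih =>
    intro l hl
    rw [← ih l hl]
    rcases step_cases m with ⟨j, hj⟩ | ⟨j, hj⟩ | h'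
    · have hjk : ¬ j < k := fun h1 => (h m hm j h1).1 hj
      obtain ⟨l', t', -, rfl, -, h'⟩ := hj
      rw [h']
      exact vv_act_lt (by omega)
    · have hjk : ¬ j < k := fun h1 => (h m hm j h1).2 hj
      obtain ⟨ρ, -, -, h'⟩ := hj
      rw [h']
      exact vv_act_lt (by omega)
    · rw [h']

private theorem vv_grow {t k : ℕ} (h : GA t k) : vv (sts t) k < vv (sts (t + 1)) k := by
  obtain ⟨l', t', -, rfl, -, h'⟩ := h
  rw [h']
  exact vv_lt_act (inv_sts t) le_rfl

/-- finitely many growth acts -/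
private theorem fin_GA {k s0 : ℕ} (hst : ∀ t ≥ s0, ∀ l < k, vv (sts t) l = vv (sts s0) l) :
    ∃ s1 ≥ s0, ∀ t ≥ s1, ¬ GA t k := by
  by_contra hcon
  push Not at hcon
  have hgrow : ∀ n, ∃ s ≥ s0, ∀ t ≥ s, n ≤ vv (sts t) k := by
    intro n
    induction n with
    | zero => exact ⟨s0, le_rfl, fun t _ => Nat.zero_le _⟩
    | succ n ih =>
      obtain ⟨s, hs, hsn⟩ := ih
      obtain ⟨t, ht, hga⟩ := hcon s hs
      refine ⟨t + 1, by omega, fun t1 ht1 => ?_⟩
      have h1 := hsn t ht
      have h2 := vv_grow hga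
      have h3 := vv_mono ht1 k
      omega
  obtain ⟨t0, ht0, l, t', -, hkl, -, -⟩ := hcon s0 le_rfl
  obtain ⟨B, hB⟩ := newB_bdd (vv (sts s0) l)
  obtain ⟨s, hs, hsB⟩ := hgrow B
  obtain ⟨t, ht, l2, t2, -, hkl2, hg, -⟩ := hcon s hs
  have hl : l2 = l := by omega
  subst hl
  unfold gB at hg
  rw [Bool.and_eq_true, decide_eq_true_eq, hst t (by omega) l2 (by omega)] at hg
  have h1 := hB t2 hg.1
  have h2 := hsB t ht
  rw [hkl2] at h2
  omega

private theorem rB_spec {s : St} {t e : ℕ} {ρ : List Bool} (h : rB s t e ρ = true) :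
    (∀ b < ρ.length, cc s b ≠ some (!ρ.getD b false)) ∧
      ∀ x' ≤ t, ∀ ρ' : List Bool, Ev x' = some (e, ρ') → satB s e ρ ρ' ≠ true := by
  unfold rB at h
  rw [Bool.and_eq_true, Bool.and_eq_true] at h
  obtain ⟨⟨-, h2⟩, h3⟩ := h
  constructor
  · intro b hb hc
    rw [List.all_eq_true] at h2
    have h4 := h2 b (List.mem_range.2 hb)
    rw [hc] at h4
    simp at h4
  · intro x' hx' ρ' hE hsat
    rw [Bool.not_eq_true', List.any_eq_false] at h3
    refine h3 x' (List.mem_range.2 (by omega)) ?_
    rw [exEv_iff]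
    refine ⟨e, ρ', hE, ?_⟩
    rw [Bool.and_eq_true]
    exact ⟨by simp, hsat⟩

/-- the string of the event of stage `t` -/
private def rho (t : ℕ) : List Bool := ((Ev t.unpair.1).map Prod.snd).getD []

/-- finitely many requirement acts -/
private theorem fin_RA {k s0 s1 : ℕ} (hs : s0 ≤ s1)
    (hst : ∀ t ≥ s0, ∀ l < k, vv (sts t) l = vv (sts s0) l) : {t | s1 ≤ t ∧ RA t k}.Finite := by
  by_contra hinf
  have hinf' : {t | s1 ≤ t ∧ RA t k}.Infinite := hinf
  obtain ⟨t, ht, t', ht', hlt, heq⟩ := hinf'.exists_lt_map_eq_of_mapsTo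
    (f := fun t => fun l : Fin k => (rho t).getD (vv (sts s0) l) false)
    (t := Set.univ) (fun _ _ => Set.mem_univ _) Set.finite_univ
  obtain ⟨hst1, ρ, hE, hr, hact⟩ := ht
  obtain ⟨hst1', ρ', hE', hr', -⟩ := ht'
  have hρ : rho t = ρ := by
    unfold rho
    rw [hE]
    rfl
  have hρ' : rho t' = ρ' := by
    unfold rho
    rw [hE']
    rfl
  obtain ⟨hb, -⟩ := rB_spec hr
  obtain ⟨-, hsat⟩ := rB_spec hr'
  have hxt : t.unpair.1 ≤ t := Nat.unpair_left_le t
  refine hsat t.unpair.1 (by omega) ρ hE ?_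
  unfold satB
  rw [List.all_eq_true]
  intro b hbr
  rw [List.mem_range] at hbr
  rw [Bool.or_eq_true]
  by_cases hv : ∀ l < k, b ≠ vv (sts t) l
  · left
    rw [decide_eq_true_eq]
    have h1 : cc (sts (t + 1)) b = some ((cc (sts t) b).getD (ρ.getD b false)) := by
      rw [hact]
      exact cc_act (inv_sts t) (lt_of_lt_of_le hbr le_nl.2.1) hv
    have h2 : (cc (sts t) b).getD (ρ.getD b false) = ρ.getD b false := by
      have h3 := hb b hbr
      cases hcc : cc (sts t) b with
      | none => rfl
      | some u =>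
        rw [hcc] at h3
        rw [Option.getD_some]
        by_contra hne
        apply h3
        congr 1
        cases u <;> cases hh : ρ.getD b false <;> simp_all
    rw [h2] at h1
    exact cc_mono (by omega) h1
  · right
    push Not at hv
    obtain ⟨l, hl, hbl⟩ := hv
    rw [hst t (by omega) l hl] at hbl
    rw [Bool.and_eq_true]
    constructor
    · rw [List.any_eq_true]
      refine ⟨l, List.mem_range.2 hl, ?_⟩
      rw [decide_eq_true_eq, hst t' (by omega) l hl]
      exact hbl
    · rw [decide_eq_true_eq]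
      have h1 := congrFun heq ⟨l, hl⟩
      simp only at h1
      rw [hρ, hρ', ← hbl] at h1
      exact h1.symm

private theorem injury_lt (k : ℕ) : ∃ s, ∀ t ≥ s, ∀ j < k, ¬ GA t j ∧ ¬ RA t j := by
  induction k with
  | zero => exact ⟨0, fun t _ j hj => absurd hj (Nat.not_lt_zero j)⟩
  | succ k ih =>
    obtain ⟨s0, hs0⟩ := ih
    have hst := stable_lt hs0
    obtain ⟨s1, hs1, hGA⟩ := fin_GA hst
    have hfin := fin_RA hs1 hst
    obtain ⟨B, hB⟩ := hfin.bddAbove
    refine ⟨max s1 (B + 1), fun t ht j hj => ?_⟩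
    have ht1 : s1 ≤ t := (le_max_left _ _).trans ht
    have ht2 : B + 1 ≤ t := (le_max_right _ _).trans ht
    rcases Nat.lt_succ_iff_lt_or_eq.1 hj with h | h
    · exact hs0 t (by omega) j h
    · subst h
      refine ⟨hGA t ht1, fun hRA => ?_⟩
      have h3 : t ≤ B := hB ⟨ht1, hRA⟩
      omega

theorem injury (k : ℕ) : ∃ s, ∀ t ≥ s, ∀ j ≤ k, ¬ GA t j ∧ ¬ RA t j := by
  obtain ⟨s, hs⟩ := injury_lt (k + 1)
  exact ⟨s, fun t ht j hj => hs t ht j (Nat.lt_succ_of_le hj)⟩

theorem stable {k s : ℕ} (h : ∀ t ≥ s, ∀ j ≤ k, ¬ GA t j ∧ ¬ RA t j) :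
    ∀ t ≥ s, ∀ l ≤ k, vv (sts t) l = vv (sts s) l := by
  intro t ht l hl
  exact stable_lt (k := k + 1) (fun t ht j hj => h t ht j (Nat.lt_succ_iff.1 hj)) t ht l
    (Nat.lt_succ_of_le hl)

end Pool.Agent.Helper61.RW
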