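import Pool.Agent.Helper61.RW.EvA

/-!
RW module NewA: events that are new for a length `n`.

PROOFS.
* newB_iff: unfold newB, exEv_iff twice (the inner one negated), List.all_eq_true, List.mem_range.
* comp_newB: comp_exEv, comp_and, comp_all over comp_range, comp_not, Primrec.nat_le.decide,
  Primrec.eq.decide, Primrec.list_take, list_length (compose the pieces as Computable functions).
* newB_bdd: the map t ↦ (Ev t).map (fun x => (x.1, x.2.take n)) is injective on {t | newB n t}
  (two new t < t' with the same value contradict the newness of t') and its values lie in the finite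
  set of the some (e, π) with e ≤ n, π.length = n (List.finite_length_eq). So the set is finite
  (Set.Finite.of_injOn or Finite.of_finite_image), hence bounded (Set.Finite.bddAbove).
* exists_new: Nat.find of the least t' with ∃ ρ', Ev t' = some (e, ρ') ∧ n ≤ ρ'.length ∧
  ρ'.take n = ρ.take n (t qualifies).
-/

set_option autoImplicit false

namespace Pool.Agent.Helper61.RW

open Encodable
open Pool.Agent.Helper64.SB
open Pool.Agent.Helper30.SatB

theorem newB_iff {n t : ℕ} : newB n t = true ↔ ∃ e ρ, Ev t = some (e, ρ) ∧ e ≤ n ∧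
    n ≤ ρ.length ∧ ∀ t' < t, ∀ ρ' : List Bool, Ev t' = some (e, ρ') → n ≤ ρ'.length →
      ρ'.take n ≠ ρ.take n := by
  unfold newB
  rw [exEv_iff]
  constructor
  · rintro ⟨e, ρ, h1, h2⟩
    simp only [Bool.and_eq_true, decide_eq_true_eq, List.all_eq_true, List.mem_range,
      Bool.not_eq_true'] at h2
    obtain ⟨⟨h3, h4⟩, h5⟩ := h2
    refine ⟨e, ρ, h1, h3, h4, fun t' ht' ρ' h6 h7 h8 => ?_⟩
    have h9 := h5 t' ht'
    rw [← Bool.not_eq_true] at h9
    apply h9
    rw [exEv_iff]
    refine ⟨e, ρ', h6, ?_⟩
    simp only [Bool.and_eq_true, decide_eq_true_eq]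
    exact ⟨⟨trivial, h7⟩, h8⟩
  · rintro ⟨e, ρ, h1, h3, h4, h5⟩
    refine ⟨e, ρ, h1, ?_⟩
    simp only [Bool.and_eq_true, decide_eq_true_eq, List.all_eq_true, List.mem_range,
      Bool.not_eq_true']
    refine ⟨⟨h3, h4⟩, fun t' ht' => ?_⟩
    rw [← Bool.not_eq_true, exEv_iff]
    rintro ⟨e', ρ', h6, h7⟩
    simp only [Bool.and_eq_true, decide_eq_true_eq] at h7
    obtain ⟨⟨h8, h9⟩, h10⟩ := h7
    rw [h8] at h6
    exact h5 t' ht' ρ' h6 h9 h10

theorem comp_newB : Computable₂ newB := by
  unfold newB
  have hle : Computable₂ fun a b : ℕ => decide (a ≤ b) := Primrec.nat_le.decide.to_comp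
  have heq : Computable₂ fun a b : ℕ => decide (a = b) := (Primrec.eq (α := ℕ)).decide.to_comp
  have heq' : Computable₂ fun a b : List Bool => decide (a = b) :=
    (Primrec.eq (α := List Bool)).decide.to_comp
  have hlen : Computable (List.length : List Bool → ℕ) := Computable.list_length
  have htake : Computable₂ fun (n : ℕ) (l : List Bool) => l.take n := by
    have h := Primrec.list_take (α := Bool)
    exact h.to_comp
  have key : Computable₂ fun (p : ℕ × ℕ) (x : ℕ × List Bool) =>
      (decide (x.1 ≤ p.1) && decide (p.1 ≤ x.2.length)) &&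
      (List.range p.2).all fun t' => !(exEv t' fun y =>
        (decide (y.1 = x.1) && decide (p.1 ≤ y.2.length)) &&
          decide (y.2.take p.1 = x.2.take p.1)) := by
    show Computable fun z : (ℕ × ℕ) × ℕ × List Bool =>
      (decide (z.2.1 ≤ z.1.1) && decide (z.1.1 ≤ z.2.2.length)) &&
      (List.range z.1.2).all fun t' => !(exEv t' fun y =>
        (decide (y.1 = z.2.1) && decide (z.1.1 ≤ y.2.length)) &&
          decide (y.2.take z.1.1 = z.2.2.take z.1.1))
    refine comp_and (comp_and ?_ ?_) (comp_all ?_ ?_)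
    · exact hle.comp (Computable.fst.comp Computable.snd) (Computable.fst.comp Computable.fst)
    · exact hle.comp (Computable.fst.comp Computable.fst)
        (hlen.comp (Computable.snd.comp Computable.snd))
    · exact comp_range.comp (Computable.snd.comp Computable.fst)
    · show Computable fun w : ((ℕ × ℕ) × ℕ × List Bool) × ℕ => !(exEv w.2 fun y =>
        (decide (y.1 = w.1.2.1) && decide (w.1.1.1 ≤ y.2.length)) &&
          decide (y.2.take w.1.1.1 = w.1.2.2.take w.1.1.1))
      refine comp_not (comp_exEv Computable.snd ?_)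
      show Computable fun q : (((ℕ × ℕ) × ℕ × List Bool) × ℕ) × (ℕ × List Bool) =>
        (decide (q.2.1 = q.1.1.2.1) && decide (q.1.1.1.1 ≤ q.2.2.length)) &&
          decide (q.2.2.take q.1.1.1.1 = q.1.1.2.2.take q.1.1.1.1)
      refine comp_and (comp_and ?_ ?_) ?_
      · exact heq.comp (Computable.fst.comp Computable.snd) (Computable.fst.comp
          (Computable.snd.comp (Computable.fst.comp Computable.fst)))
      · exact hle.comp (Computable.fst.comp (Computable.fst.comp (Computable.fst.comp
          Computable.fst))) (hlen.comp (Computable.snd.comp Computable.snd))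
      · exact heq'.comp (htake.comp (Computable.fst.comp (Computable.fst.comp
          (Computable.fst.comp Computable.fst))) (Computable.snd.comp Computable.snd))
          (htake.comp (Computable.fst.comp (Computable.fst.comp (Computable.fst.comp
          Computable.fst))) (Computable.snd.comp (Computable.snd.comp (Computable.fst.comp
          Computable.fst))))
  exact (comp_exEv Computable.snd key).to₂

theorem newB_bdd (n : ℕ) : ∃ B, ∀ t, newB n t = true → t < B := by
  have hfin : {t | newB n t = true}.Finite := by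
    refine Set.Finite.of_injOn (f := fun t => (Ev t).map fun x => (x.1, x.2.take n))
      (t := some '' ((Set.Iic n) ×ˢ {π : List Bool | π.length = n})) ?_ ?_ ?_
    · intro t ht
      obtain ⟨e, ρ, h1, h2, h3, -⟩ := newB_iff.1 ht
      refine ⟨(e, ρ.take n), ⟨h2, ?_⟩, ?_⟩
      · show (ρ.take n).length = n
        rw [List.length_take]
        exact min_eq_left h3
      · simp only [h1, Option.map_some]
    · have aux : ∀ t t', newB n t = true → newB n t' = true → t' < t →
          ((Ev t).map fun x => (x.1, x.2.take n)) ≠ (Ev t').map fun x => (x.1, x.2.take n) := by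
        intro t t' ht ht' hlt heq
        obtain ⟨e, ρ, h1, h2, h3, h4⟩ := newB_iff.1 ht
        obtain ⟨e', ρ', h1', h2', h3', -⟩ := newB_iff.1 ht'
        rw [h1, h1'] at heq
        simp only [Option.map_some, Option.some.injEq, Prod.mk.injEq] at heq
        obtain ⟨rfl, h6⟩ := heq
        exact h4 t' hlt ρ' h1' h3' h6.symm
      intro t ht t' ht' heq
      by_contra hne
      rcases lt_or_gt_of_ne hne with h | h
      · exact aux t' t ht' ht h heq.symm
      · exact aux t t' ht ht' h heq
    · exact ((Set.finite_Iic n).prod (List.finite_length_eq Bool n)).image _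
  obtain ⟨B, hB⟩ := hfin.bddAbove
  exact ⟨B + 1, fun t ht => Nat.lt_succ_of_le (hB ht)⟩

theorem exists_new {n e t : ℕ} {ρ : List Bool} (he : e ≤ n) (hn : n ≤ ρ.length)
    (h : Ev t = some (e, ρ)) : ∃ t' ≤ t, ∃ ρ' : List Bool, newB n t' = true ∧
      Ev t' = some (e, ρ') ∧ n ≤ ρ'.length ∧ ρ'.take n = ρ.take n := by
  classical
  have hex : ∃ t', ∃ ρ' : List Bool, Ev t' = some (e, ρ') ∧ n ≤ ρ'.length ∧
      ρ'.take n = ρ.take n := ⟨t, ρ, h, hn, rfl⟩
  obtain ⟨ρ', h1, h2, h3⟩ := Nat.find_spec hex
  refine ⟨Nat.find hex, Nat.find_min' hex ⟨ρ, h, hn, rfl⟩, ρ', ?_, h1, h2, h3⟩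
  rw [newB_iff]
  refine ⟨e, ρ', h1, he, h2, fun t' ht' ρ'' h4 h5 h6 => ?_⟩
  exact Nat.find_min hex ht' ⟨ρ'', h4, h5, h6.trans h3⟩

end Pool.Agent.Helper61.RW
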