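import Pool.Agent.Helper61.RW.StC

/-!
RW module TreeA: the tree and the tournament.

PROOFS.
* par_succ: rfl. comp_par: Computable.nat_rec, Primrec.xor (or Primrec.dom_bool₂).
* inT_iff: unfold, List.all_eq_true; cases on S σ.length b.
* comp_inT: comp_all, comp_range, Computable.option_getD, option_map, Primrec.list_getD, eq.decide.
* inT_prefix: σ = prefix of τ: σ.getD b false = τ.getD b false for b < σ.length, and
  S σ.length b = some u implies S τ.length b = some u (hS.mono).
* inT_sg: for b + 1 < n, S n b = some u: then S y b = some u, and
  sg S y b ^^ sg S y (b+1) = (S y b).getD false = u (par_succ).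
* comp_sg, comp_RR: Computable.cond, Primrec.nat_lt.decide.
-/

set_option autoImplicit false

namespace Pool.Agent.Helper61.RW

open Pool.Agent.Helper64.SB
open Pool.Agent.Helper30.SatB

theorem par_succ (f : ℕ → Bool) (x : ℕ) : par f (x + 1) = (par f x ^^ f x) := rfl

private theorem xor_p : Primrec₂ (fun a b : Bool => a ^^ b) := Primrec.dom_bool₂ _

theorem inT_iff {S : ℕ → ℕ → Option Bool} {σ : List Bool} : inT S σ = true ↔
    ∀ b u, b + 1 < σ.length → S σ.length b = some u →
      (σ.getD b false ^^ σ.getD (b + 1) false) = u := by
  unfold inT
  rw [List.all_eq_true]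
  simp only [List.mem_range]
  constructor
  · intro h b u hb hS
    have h1 := h b (by omega)
    rw [hS] at h1
    simpa using h1
  · intro h b hb
    cases hS : S σ.length b with
    | none => rfl
    | some u =>
      have h1 := h b u (by omega) hS
      simp only [Option.map_some, Option.getD_some, decide_eq_true_eq]
      exact h1

theorem comp_inT {S : ℕ → ℕ → Option Bool} (hS : Computable₂ S) : Computable (inT S) := by
  have h : Computable fun σ : List Bool => (List.range (σ.length - 1)).all fun b =>
      ((S σ.length b).map fun u =>
        decide ((σ.getD b false ^^ σ.getD (b + 1) false) = u)).getD true := by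
    refine comp_all (comp_range.comp ((Primrec.nat_sub.comp Primrec.list_length
      (Primrec.const 1)).to_comp)) ?_
    refine Computable.option_getD (Computable.option_map (hS.comp
      (Computable.list_length.comp Computable.fst) Computable.snd) ?_) (Computable.const true)
    have hg : Primrec fun x : (List Bool × ℕ) × Bool =>
        decide ((x.1.1.getD x.1.2 false ^^ x.1.1.getD (x.1.2 + 1) false) = x.2) := by
      refine Primrec.eq.decide.comp ?_ Primrec.snd
      refine xor_p.comp ?_ ?_
      · exact (Primrec.list_getD false).comp (Primrec.fst.comp Primrec.fst)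
          (Primrec.snd.comp Primrec.fst)
      · exact (Primrec.list_getD false).comp (Primrec.fst.comp Primrec.fst)
          (Primrec.succ.comp (Primrec.snd.comp Primrec.fst))
    exact hg.to_comp
  exact h

theorem inT_prefix {S : ℕ → ℕ → Option Bool} {v : ℕ → ℕ} (hS : Con S v) {σ τ : List Bool}
    (h : σ <+: τ) (hτ : inT S τ = true) : inT S σ = true := by
  obtain ⟨r, rfl⟩ := h
  rw [inT_iff] at hτ ⊢
  intro b u hb hu
  have hl : σ.length ≤ (σ ++ r).length := by
    rw [List.length_append]
    omega
  have h1 := hτ b u (by omega) (hS.mono _ _ _ _ hl hu)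
  rwa [List.getD_append _ _ _ _ (by omega), List.getD_append _ _ _ _ hb] at h1

theorem inT_sg {S : ℕ → ℕ → Option Bool} {v : ℕ → ℕ} (hS : Con S v) {y n : ℕ} (h : n ≤ y) :
    inT S ((List.range n).map (sg S y)) = true := by
  rw [inT_iff]
  intro b u hb hu
  rw [List.length_map, List.length_range] at hb hu
  have hu' := hS.mono _ _ _ _ h hu
  have hg : ∀ c, c < n → ((List.range n).map (sg S y)).getD c false = sg S y c := by
    intro c hc
    rw [List.getD_eq_getElem _ _ (by rw [List.length_map, List.length_range]; exact hc)]
    simp
  rw [hg b (by omega), hg (b + 1) hb]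
  have h2 : sg S y (b + 1) = (sg S y b ^^ (S y b).getD false) := rfl
  rw [h2, hu', Option.getD_some]
  cases sg S y b <;> cases u <;> rfl

theorem comp_sg {S : ℕ → ℕ → Option Bool} (hS : Computable₂ S) : Computable₂ (sg S) := by
  have h : Computable fun z : ℕ × ℕ => (Nat.rec false
      (fun b r => r ^^ (S z.1 b).getD false) z.2 : Bool) := by
    refine Computable.nat_rec (f := fun z : ℕ × ℕ => z.2) (g := fun _ => false)
      (h := fun z (q : ℕ × Bool) => q.2 ^^ (S z.1 q.1).getD false)
      Computable.snd (Computable.const false) ?_
    refine xor_p.to_comp.comp (Computable.snd.comp Computable.snd) ?_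
    exact Computable.option_getD (hS.comp (Computable.fst.comp Computable.fst)
      (Computable.fst.comp Computable.snd)) (Computable.const false)
  exact h

theorem comp_RR {S : ℕ → ℕ → Option Bool} (hS : Computable₂ S) : Computable₂ (RR S) := by
  have hs := comp_sg hS
  have h : Computable fun z : ℕ × ℕ => bif decide (z.1 < z.2) then sg S z.2 z.1 else
      bif decide (z.2 < z.1) then !sg S z.1 z.2 else false := by
    refine Computable.cond (Primrec.nat_lt.decide.to_comp.comp Computable.fst Computable.snd)
      (hs.comp Computable.snd Computable.fst) ?_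
    exact Computable.cond (Primrec.nat_lt.decide.to_comp.comp Computable.snd Computable.fst)
      (Primrec.not.to_comp.comp (hs.comp Computable.fst Computable.snd)) (Computable.const false)
  exact h

theorem RR_self (S : ℕ → ℕ → Option Bool) (x : ℕ) : RR S x x = false := by
  simp [RR]

theorem RR_ne (S : ℕ → ℕ → Option Bool) (x y : ℕ) (h : x ≠ y) :
    RR S x y = true ↔ RR S y x = false := by
  rcases Nat.lt_or_gt_of_ne h with h1 | h1
  · have h2 : ¬ y < x := by omega
    simp [RR, h1, h2]
  · have h2 : ¬ x < y := by omega
    simp [RR, h1, h2]

end Pool.Agent.Helper61.RW
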